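import Pool.Agent.Lib.MP_4eed4e_an_PE.EDiv
import Pool.Agent.Lib.MP_4eed4e_an_P.OutB

set_option autoImplicit false

/-!
Project P, block E, module EHad: Hadamard's formula for the eigenfunctions of `T0`.
-/

namespace Pool.Agent.MP4eed4eP.PE

open MeasureTheory Set Filter Topology

/-- First component of the field `(|∇u|² - λu²) W - 2 (W·∇u) ∇u`. -/
noncomputable def Z1 (κ : KS) (W : P) (x : P) : ℝ :=
  (d1 (uf κ) x ^ 2 + d2 (uf κ) x ^ 2 - (mu κ)⁻¹ * uf κ x ^ 2) * W.1 -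
    2 * (W.1 * d1 (uf κ) x + W.2 * d2 (uf κ) x) * d1 (uf κ) x

/-- Second component. -/
noncomputable def Z2 (κ : KS) (W : P) (x : P) : ℝ :=
  (d1 (uf κ) x ^ 2 + d2 (uf κ) x ^ 2 - (mu κ)⁻¹ * uf κ x ^ 2) * W.2 -
    2 * (W.1 * d1 (uf κ) x + W.2 * d2 (uf κ) x) * d2 (uf κ) x

theorem cd_uf (κ : KS) (n : ℕ) : ContDiff ℝ n (uf κ) :=
  (contDiff_uf κ).of_le (by exact_mod_cast le_top)

theorem cd_d1 {f : P → ℝ} {n : ℕ} (h : ContDiff ℝ ((n + 1 : ℕ) : WithTop ℕ∞) f) :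
    ContDiff ℝ (n : WithTop ℕ∞) (d1 f) := by
  have h1 : ContDiff ℝ (n : WithTop ℕ∞) (fderiv ℝ f) := h.fderiv_right (by norm_cast)
  exact h1.clm_apply contDiff_const

theorem cd_d2 {f : P → ℝ} {n : ℕ} (h : ContDiff ℝ ((n + 1 : ℕ) : WithTop ℕ∞) f) :
    ContDiff ℝ (n : WithTop ℕ∞) (d2 f) := by
  have h1 : ContDiff ℝ (n : WithTop ℕ∞) (fderiv ℝ f) := h.fderiv_right (by norm_cast)
  exact h1.clm_apply contDiff_const

theorem cd_d1_uf (κ : KS) (n : ℕ) : ContDiff ℝ (n : WithTop ℕ∞) (d1 (uf κ)) :=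
  cd_d1 (cd_uf κ (n + 1))

theorem cd_d2_uf (κ : KS) (n : ℕ) : ContDiff ℝ (n : WithTop ℕ∞) (d2 (uf κ)) :=
  cd_d2 (cd_uf κ (n + 1))

theorem cd_Z1 (κ : KS) (W : P) : ContDiff ℝ 1 (Z1 κ W) := by
  have h0 : ContDiff ℝ 1 (uf κ) := by exact_mod_cast cd_uf κ 1
  have h1 : ContDiff ℝ 1 (d1 (uf κ)) := by exact_mod_cast cd_d1_uf κ 1
  have h2 : ContDiff ℝ 1 (d2 (uf κ)) := by exact_mod_cast cd_d2_uf κ 1
  unfold Z1
  exact ((((h1.pow 2).add (h2.pow 2)).sub (contDiff_const.mul (h0.pow 2))).mul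
    contDiff_const).sub ((contDiff_const.mul ((contDiff_const.mul h1).add
      (contDiff_const.mul h2))).mul h1)

theorem cd_Z2 (κ : KS) (W : P) : ContDiff ℝ 1 (Z2 κ W) := by
  have h0 : ContDiff ℝ 1 (uf κ) := by exact_mod_cast cd_uf κ 1
  have h1 : ContDiff ℝ 1 (d1 (uf κ)) := by exact_mod_cast cd_d1_uf κ 1
  have h2 : ContDiff ℝ 1 (d2 (uf κ)) := by exact_mod_cast cd_d2_uf κ 1
  unfold Z2
  exact ((((h1.pow 2).add (h2.pow 2)).sub (contDiff_const.mul (h0.pow 2))).mul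
    contDiff_const).sub ((contDiff_const.mul ((contDiff_const.mul h1).add
      (contDiff_const.mul h2))).mul h2)

theorem d1_d2_comm {f : P → ℝ} (h : ContDiff ℝ 2 f) (x : P) : d1 (d2 f) x = d2 (d1 f) x := by
  have hd : DifferentiableAt ℝ (fderiv ℝ f) x :=
    (h.fderiv_right (m := 1) (by norm_num)).differentiable (by norm_num) x
  have h1 : ∀ v w : P, fderiv ℝ (fun y => fderiv ℝ f y v) x w = fderiv ℝ (fderiv ℝ f) x w v := by
    intro v w
    have := (hd.hasFDerivAt.clm_apply (hasFDerivAt_const v x)).fderiv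
    rw [this]
    simp
  have hs : IsSymmSndFDerivAt ℝ f x :=
    h.contDiffAt.isSymmSndFDerivAt (by simp)
  have e1 : d1 (d2 f) x = fderiv ℝ (fderiv ℝ f) x (1, 0) (0, 1) := h1 (0, 1) (1, 0)
  have e2 : d2 (d1 f) x = fderiv ℝ (fderiv ℝ f) x (0, 1) (1, 0) := h1 (1, 0) (0, 1)
  rw [e1, e2]
  exact hs.eq _ _

/-- Derivative of a general expression `(p² + q² - l u²) a - 2 (b p + c q) r`. -/
theorem fderiv_expr {u p q r : P → ℝ} {x : P} (hu : DifferentiableAt ℝ u x)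
    (hp : DifferentiableAt ℝ p x) (hq : DifferentiableAt ℝ q x) (hr : DifferentiableAt ℝ r x)
    (l a b c : ℝ) (v : P) :
    fderiv ℝ (fun y => (p y ^ 2 + q y ^ 2 - l * u y ^ 2) * a - 2 * (b * p y + c * q y) * r y) x v =
      (2 * p x * fderiv ℝ p x v + 2 * q x * fderiv ℝ q x v - l * (2 * u x * fderiv ℝ u x v)) * a
      - (2 * (b * fderiv ℝ p x v + c * fderiv ℝ q x v) * r x +
        2 * (b * p x + c * q x) * fderiv ℝ r x v) := by
  have h1 : HasFDerivAt (fun y => p y ^ 2) ((2 * p x) • fderiv ℝ p x) x := by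
    have := hp.hasFDerivAt.pow 2
    simpa using this
  have h2 : HasFDerivAt (fun y => q y ^ 2) ((2 * q x) • fderiv ℝ q x) x := by
    have := hq.hasFDerivAt.pow 2
    simpa using this
  have h3 : HasFDerivAt (fun y => u y ^ 2) ((2 * u x) • fderiv ℝ u x) x := by
    have := hu.hasFDerivAt.pow 2
    simpa using this
  have h4 := ((h1.add h2).sub (h3.const_mul l)).mul_const a
  have h5 := ((hp.hasFDerivAt.const_mul b).add (hq.hasFDerivAt.const_mul c)).const_mul 2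
  have h6 := h4.sub (h5.mul hr.hasFDerivAt)
  have h7 : fderiv ℝ (fun y => (p y ^ 2 + q y ^ 2 - l * u y ^ 2) * a -
      2 * (b * p y + c * q y) * r y) x = _ := h6.fderiv
  rw [h7]
  simp only [sub_apply, add_apply, smul_apply, smul_eq_mul, Pi.add_apply]
  ring

theorem div_Z (κ : KS) (W : P) (x : P) : d1 (Z1 κ W) x + d2 (Z2 κ W) x = 0 := by
  have hu : Differentiable ℝ (uf κ) := (cd_uf κ 1).differentiable (by norm_num)
  have h1 : Differentiable ℝ (d1 (uf κ)) := (cd_d1_uf κ 1).differentiable (by norm_num)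
  have h2 : Differentiable ℝ (d2 (uf κ)) := (cd_d2_uf κ 1).differentiable (by norm_num)
  have e1 : d1 (Z1 κ W) x = _ :=
    fderiv_expr (hu x) (h1 x) (h2 x) (h1 x) (mu κ)⁻¹ W.1 W.1 W.2 (1, 0)
  have e2 : d2 (Z2 κ W) x = _ :=
    fderiv_expr (hu x) (h1 x) (h2 x) (h2 x) (mu κ)⁻¹ W.2 W.1 W.2 (0, 1)
  rw [e1, e2]
  have f1 : fderiv ℝ (d1 (uf κ)) x (1, 0) = d1 (d1 (uf κ)) x := rfl
  have f2 : fderiv ℝ (d1 (uf κ)) x (0, 1) = d2 (d1 (uf κ)) x := rfl
  have f3 : fderiv ℝ (d2 (uf κ)) x (1, 0) = d1 (d2 (uf κ)) x := rfl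
  have f4 : fderiv ℝ (d2 (uf κ)) x (0, 1) = d2 (d2 (uf κ)) x := rfl
  have f5 : fderiv ℝ (uf κ) x (1, 0) = d1 (uf κ) x := rfl
  have f6 : fderiv ℝ (uf κ) x (0, 1) = d2 (uf κ) x := rfl
  rw [f1, f2, f3, f4, f5, f6, d1_d2_comm (by exact_mod_cast cd_uf κ 2)]
  have hlap := lap_uf κ x
  linear_combination (-2 * (W.1 * d1 (uf κ) x + W.2 * d2 (uf κ) x)) * hlap

/-! ### Boundary values -/

theorem d2_right (κ : KS) (y : ℝ) : d2 (uf κ) (√3, y) = 0 := by
  have hu : Differentiable ℝ (uf κ) := (cd_uf κ 1).differentiable (by norm_num)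
  have h1 := deriv_slice_v (x := (√3, y)) (hu (√3, y))
  have h2 : (fun s => uf κ (((√3, y) : P).1, s)) = fun _ => (0 : ℝ) := by
    funext s; exact uf_bd2 κ s
  rw [h2, deriv_const] at h1
  exact h1.symm

theorem d1_base (κ : KS) (x : ℝ) : d1 (uf κ) (x, 0) = 0 := by
  have hu : Differentiable ℝ (uf κ) := (cd_uf κ 1).differentiable (by norm_num)
  have h1 := deriv_slice_h (x := (x, 0)) (hu (x, 0))
  have h2 : (fun s => uf κ (s, ((x, 0) : P).2)) = fun _ => (0 : ℝ) := by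
    funext s; exact uf_bd1 κ s
  rw [h2, deriv_const] at h1
  exact h1.symm

theorem grad_hyp (κ : KS) (y : ℝ) :
    √3 * d1 (uf κ) (√3 * y, y) + d2 (uf κ) (√3 * y, y) = 0 := by
  have hu : Differentiable ℝ (uf κ) := (cd_uf κ 1).differentiable (by norm_num)
  have h1 : HasDerivAt (fun s : ℝ => ((√3 * s, s) : P)) (√3, (1 : ℝ)) y := by
    have h3 : HasDerivAt (fun s : ℝ => √3 * s) √3 y := by
      simpa using (hasDerivAt_id y).const_mul √3
    exact h3.prodMk (hasDerivAt_id y)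
  have h2 : HasFDerivAt (uf κ) (fderiv ℝ (uf κ) (√3 * y, y)) ((fun s : ℝ => ((√3 * s, s) : P)) y) :=
    (hu _).hasFDerivAt
  have h3 := (HasFDerivAt.comp_hasDerivAt (f := fun s : ℝ => ((√3 * s, s) : P)) y h2 h1).deriv
  have h4 : (uf κ ∘ fun s : ℝ => ((√3 * s, s) : P)) = fun _ => (0 : ℝ) := by
    funext s; exact uf_bd3 κ s
  rw [h4, deriv_const] at h3
  have h5 : ((√3, 1) : P) = √3 • ((1 : ℝ), (0 : ℝ)) + (1 : ℝ) • ((0 : ℝ), (1 : ℝ)) := by
    ext <;> simp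
  rw [h5, map_add, map_smul, map_smul, smul_eq_mul, smul_eq_mul, one_mul] at h3
  exact h3.symm

/-- Hadamard's formula. -/
theorem hadamard (κ : KS) (W : P) {ψ : P → ℝ} {K : NNReal} (h : LipschitzWith K ψ)
    (hhyp : ∀ y ∈ Icc (0 : ℝ) 1, ψ (√3 * y, y) * (W.1 - √3 * W.2) = 0) :
    ∫ x in T0, (d1 ψ x * Z1 κ W x + d2 ψ x * Z2 κ W x) =
      √3 * (Real.pi ^ 2 / 9) * W.2 * (∫ t in (0 : ℝ)..1, gO κ t ^ 2 * ψ (√3 * t, 0)) -
        Real.pi ^ 2 / 3 * W.1 * ∫ y in (0 : ℝ)..1, gA κ y ^ 2 * ψ (√3, y) := by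
  have hs := s3_pos
  have hs3 : √3 * √3 = 3 := Real.mul_self_sqrt (by norm_num)
  rw [div_T0 h (cd_Z1 κ W) (cd_Z2 κ W) (div_Z κ W)]
  · -- boundary integrals
    have e1 : ∫ y in (0 : ℝ)..1, ψ (√3, y) * Z1 κ W (√3, y) =
        -(Real.pi ^ 2 / 3 * W.1 * ∫ y in (0 : ℝ)..1, gA κ y ^ 2 * ψ (√3, y)) := by
      rw [← intervalIntegral.integral_const_mul, ← intervalIntegral.integral_neg]
      refine intervalIntegral.integral_congr fun y _ => ?_
      simp only [Z1, d2_right, uf_bd2, d1_uf]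
      field_simp
      ring_nf
      have : (√3 : ℝ) ^ 2 = 3 := by rw [sq]; exact hs3
      rw [this]; ring
    have e2 : ∫ x in (0 : ℝ)..√3, ψ (x, 0) * Z2 κ W (x, 0) =
        -(√3 * (Real.pi ^ 2 / 9) * W.2 * ∫ t in (0 : ℝ)..1, gO κ t ^ 2 * ψ (√3 * t, 0)) := by
      have h3 := intervalIntegral.integral_comp_mul_left (a := 0) (b := 1)
        (fun x => ψ (x, 0) * Z2 κ W (x, 0)) hs.ne'
      rw [mul_zero, mul_one, smul_eq_mul] at h3
      have h4 : ∫ x in (0 : ℝ)..√3, ψ (x, 0) * Z2 κ W (x, 0) =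
          √3 * ∫ t in (0 : ℝ)..1, ψ (√3 * t, 0) * Z2 κ W (√3 * t, 0) := by
        rw [h3]; field_simp
      rw [h4, ← intervalIntegral.integral_const_mul, ← intervalIntegral.integral_const_mul,
        ← intervalIntegral.integral_neg]
      refine intervalIntegral.integral_congr fun t _ => ?_
      have h5 : √3 * t / √3 = t := by field_simp
      simp only [Z2, d1_base, uf_bd1, d2_uf, h5]
      ring
    rw [e1, e2]; ring
  · intro y hy
    have h1 := hhyp y hy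
    have h2 := grad_hyp κ y
    have h3 : d2 (uf κ) (√3 * y, y) = -(√3 * d1 (uf κ) (√3 * y, y)) := by linarith
    have h4 : Z1 κ W (√3 * y, y) - √3 * Z2 κ W (√3 * y, y) =
        -4 * d1 (uf κ) (√3 * y, y) ^ 2 * (W.1 - √3 * W.2) := by
      simp only [Z1, Z2, uf_bd3, h3]
      ring_nf
      have e2 : (√3 : ℝ) ^ 2 = 3 := by rw [sq]; exact hs3
      have e3 : (√3 : ℝ) ^ 3 = 3 * √3 := by rw [pow_succ, e2]
      rw [e3, e2]; ring
    rw [h4]
    linear_combination (-4 * d1 (uf κ) (√3 * y, y) ^ 2) * h1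

end Pool.Agent.MP4eed4eP.PE
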