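import Pool.Agent.Lib.MP_4eed4e_an_PE.EHad
import Pool.Agent.Lib.MP_4eed4e_an_PD.DGra
import Pool.Agent.Lib.MP_4eed4e_an_PD.DTri
import Pool.Agent.Lib.MP_4eed4e_an_PD.DCM

set_option autoImplicit false

/-!
Project P, block E, module EUh: the eigenfunctions on the reference triangle.

* `lip_zero`: if `x ∈ D`, `y ∉ D` the segment `[x, y]` meets `frontier D` in a point `z`
  (`(convex_segment x y).isPreconnected.inter_frontier_nonempty` or similar), `F z = 0`, so
  `|F x| = |F x - F z| ≤ K dist x z ≤ K dist x y` (`dist_add_dist_of_mem_segment`).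
* `lip_uh`: `uf κ` is Lipschitz on `P` (a finite sum of products of sines; or: `Fm` maps everything
  near the closed triangle into a bounded set; simplest: each term `sin (a x) sin (b y)` is
  Lipschitz, product of bounded Lipschitz functions; or bound the derivative and use
  `lipschitzWith_of_nnnorm_fderiv_le`), `Fm` is Lipschitz (`lipschitz_Fm`); apply `lip_zero` to
  `F v = uf κ (Fm (cs th) v)`, `D = Tri`. On `frontier Tri` we have `v.1 ≥ 0`, `v.2 ≥ 0`,
  `v.1 + v.2 ≤ 1` (closure) and `v ∉ Tri` (open), so `v.1 + v.2 = 1` or `v.1 = 0` or `v.2 = 0`: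
  - `v.1 + v.2 = 1`: `(Fm (cs th) v).2 = 0` by `Fm_cs_snd`, use `uf_bd1`;
  - `v.1 = 0`: `v ∈ CS m m`, so `Fm (cs th) v = pB + Lj m v = (√3, 1 - v.2)` (`Fm_CS`, `Lj_eq`,
    `WW_cs`, `pB_cs`, `nd th (m+1) = 1`, `t0_last`), use `uf_bd2`;
  - `v.2 = 0`: `v ∈ CS m 0`, `Fm (cs th) v = (√3 (1 - v.1), 1 - v.1)`, use `uf_bd3`.
* `uh_d1`, `uh_d2`: `d1_pull`, `d1_Fm`. `cont_d1_uh`: by `ae_Sec` a.e. `v` is in some open
  `Sec m j`, and on it `d1 (uh th κ)` is the continuous function of `uh_d1`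
  (`Fm` is continuous by `lipschitz_Fm`, `d1 (uf κ)` by `cd_d1_uf`).
-/

namespace Pool.Agent.MP4eed4eP.PE

open MeasureTheory Set Filter Topology

/-- A segment from a point of `D` to a point outside meets the frontier. -/
private theorem euh_frontier {D : Set P} {x y : P} (hx : x ∈ D) (hy : y ∉ D) :
    ∃ z ∈ segment ℝ x y, z ∈ frontier D := by
  by_contra hcon
  push Not at hcon
  have h1 : ∀ z ∈ segment ℝ x y, z ∈ interior D ∨ z ∈ (closure D)ᶜ := by
    intro z hz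
    have h2 := hcon z hz
    by_contra h3
    push Not at h3
    exact h2 ⟨not_not.1 h3.2, h3.1⟩
  have hx1 : x ∈ interior D := (h1 x (left_mem_segment ℝ x y)).resolve_right
    fun h => h (subset_closure hx)
  have hy1 : y ∈ (closure D)ᶜ := (h1 y (right_mem_segment ℝ x y)).resolve_left
    fun h => hy (interior_subset h)
  obtain ⟨z, -, h4, h5⟩ := (convex_segment x y).isPreconnected (interior D) (closure D)ᶜ
    isOpen_interior isClosed_closure.isOpen_compl h1 ⟨x, left_mem_segment ℝ x y, hx1⟩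
    ⟨y, right_mem_segment ℝ x y, hy1⟩
  exact h5 (interior_subset_closure h4)

theorem lip_zero {D : Set P} {F : P → ℝ} {K : NNReal} (hF : LipschitzWith K F)
    (h0 : ∀ z ∈ frontier D, F z = 0) : LipschitzWith K (D.indicator F) := by
  have key : ∀ x ∈ D, ∀ y, y ∉ D → |F x| ≤ K * dist x y := by
    intro x hx y hy
    obtain ⟨z, hz, hzD⟩ := euh_frontier hx hy
    have h1 := hF.dist_le_mul x z
    rw [h0 z hzD, Real.dist_eq, sub_zero] at h1
    have h2 := dist_add_dist_of_mem_segment hz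
    have h3 : dist x z ≤ dist x y := by
      have h4 : 0 ≤ dist z y := dist_nonneg
      linarith
    exact h1.trans (mul_le_mul_of_nonneg_left h3 K.2)
  refine LipschitzWith.of_dist_le_mul fun x y => ?_
  by_cases hx : x ∈ D
  · by_cases hy : y ∈ D
    · rw [indicator_of_mem hx, indicator_of_mem hy]
      exact hF.dist_le_mul x y
    · rw [indicator_of_mem hx, indicator_of_notMem hy, Real.dist_eq, sub_zero]
      exact key x hx y hy
  · by_cases hy : y ∈ D
    · rw [indicator_of_notMem hx, indicator_of_mem hy, dist_comm, Real.dist_eq, sub_zero,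
        dist_comm x y]
      exact key y hy x hx
    · rw [indicator_of_notMem hx, indicator_of_notMem hy, dist_self]
      exact mul_nonneg K.2 dist_nonneg

/-- The basic functions. -/
private noncomputable def euhT (a α b β : ℝ) (v : P) : ℝ :=
  Real.sin (a * v.1 + α) * Real.sin (b * v.2 + β)

private theorem euh_lip_mul {f g : P → ℝ} (hf : ∃ K, LipschitzWith K f)
    (hg : ∃ K, LipschitzWith K g) (hf1 : ∀ v, |f v| ≤ 1) (hg1 : ∀ v, |g v| ≤ 1) :
    ∃ K, LipschitzWith K fun v => f v * g v := by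
  obtain ⟨K, hK⟩ := hf
  obtain ⟨K', hK'⟩ := hg
  refine ⟨K + K', LipschitzWith.of_dist_le_mul fun x y => ?_⟩
  have h1 := hK.dist_le_mul x y
  have h2 := hK'.dist_le_mul x y
  rw [Real.dist_eq] at h1 h2 ⊢
  have h3 : f x * g x - f y * g y = (f x - f y) * g x + f y * (g x - g y) := by ring
  have h4 : |(f x - f y) * g x| ≤ |f x - f y| := by
    rw [abs_mul]
    exact mul_le_of_le_one_right (abs_nonneg _) (hg1 x)
  have h5 : |f y * (g x - g y)| ≤ |g x - g y| := by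
    rw [abs_mul]
    exact mul_le_of_le_one_left (abs_nonneg _) (hf1 y)
  rw [h3, NNReal.coe_add, add_mul]
  exact (abs_add_le _ _).trans (add_le_add (h4.trans h1) (h5.trans h2))

private theorem euh_lip_T (a α b β : ℝ) : ∃ K, LipschitzWith K (euhT a α b β) := by
  have h1 : ∃ K, LipschitzWith K fun v : P => Real.sin (a * v.1 + α) := by
    have h2 := ((a • ContinuousLinearMap.fst ℝ ℝ ℝ).lipschitz).add (LipschitzWith.const (α := P) α)
    exact ⟨_, Real.lipschitzWith_sin.comp h2⟩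
  have h3 : ∃ K, LipschitzWith K fun v : P => Real.sin (b * v.2 + β) := by
    have h2 := ((b • ContinuousLinearMap.snd ℝ ℝ ℝ).lipschitz).add (LipschitzWith.const (α := P) β)
    exact ⟨_, Real.lipschitzWith_sin.comp h2⟩
  exact euh_lip_mul h1 h3 (fun v => Real.abs_sin_le_one _) fun v => Real.abs_sin_le_one _

private theorem euh_hasF (a α b β : ℝ) (v : P) : HasFDerivAt (euhT a α b β)
    (Real.sin (a * v.1 + α) • (Real.cos (b * v.2 + β) • (b • ContinuousLinearMap.snd ℝ ℝ ℝ)) +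
      Real.sin (b * v.2 + β) • (Real.cos (a * v.1 + α) • (a • ContinuousLinearMap.fst ℝ ℝ ℝ)))
    v := by
  have h1 : HasFDerivAt (fun v : P => a * v.1 + α) (a • ContinuousLinearMap.fst ℝ ℝ ℝ) v :=
    (((ContinuousLinearMap.fst ℝ ℝ ℝ).hasFDerivAt).const_mul a).add_const α
  have h2 : HasFDerivAt (fun v : P => b * v.2 + β) (b • ContinuousLinearMap.snd ℝ ℝ ℝ) v :=
    (((ContinuousLinearMap.snd ℝ ℝ ℝ).hasFDerivAt).const_mul b).add_const β
  exact h1.sin.mul h2.sin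

private theorem euh_d1_T (a α b β : ℝ) (v : P) :
    d1 (euhT a α b β) v = a * euhT a (α + Real.pi / 2) b β v := by
  unfold d1
  rw [(euh_hasF a α b β v).fderiv]
  unfold euhT
  rw [← add_assoc, Real.sin_add_pi_div_two]
  change Real.sin (a * v.1 + α) * (Real.cos (b * v.2 + β) * (b * 0)) +
    Real.sin (b * v.2 + β) * (Real.cos (a * v.1 + α) * (a * 1)) = _
  ring

private theorem euh_d2_T (a α b β : ℝ) (v : P) :
    d2 (euhT a α b β) v = b * euhT a α b (β + Real.pi / 2) v := by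
  unfold d2
  rw [(euh_hasF a α b β v).fderiv]
  unfold euhT
  rw [← add_assoc, Real.sin_add_pi_div_two]
  change Real.sin (a * v.1 + α) * (Real.cos (b * v.2 + β) * (b * 1)) +
    Real.sin (b * v.2 + β) * (Real.cos (a * v.1 + α) * (a * 0)) = _
  ring

private theorem euh_uf (κ : KS) : uf κ = fun v => ∑ i : Fin 3,
    euhT (Ci κ i * (Real.pi / √3)) 0 (Bi κ i * (Real.pi / 3)) 0 v := by
  funext v
  unfold uf euhT
  refine Finset.sum_congr rfl fun i _ => ?_
  rw [add_zero, add_zero, mul_div_right_comm Real.pi v.1, mul_div_right_comm Real.pi v.2,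
    mul_assoc, mul_assoc]

private theorem euh_lip_sum {ι : Type} (s : Finset ι) (f : ι → P → ℝ)
    (h : ∀ i ∈ s, ∃ K, LipschitzWith K (f i)) : ∃ K, LipschitzWith K fun v => ∑ i ∈ s, f i v := by
  classical
  induction s using Finset.induction_on with
  | empty =>
    refine ⟨0, ?_⟩
    simp only [Finset.sum_empty]
    exact LipschitzWith.const 0
  | insert a s ha ih =>
    obtain ⟨K1, hK1⟩ := h a (Finset.mem_insert_self a s)
    obtain ⟨K2, hK2⟩ := ih fun i hi => h i (Finset.mem_insert_of_mem hi)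
    refine ⟨K1 + K2, ?_⟩
    simp only [Finset.sum_insert ha]
    exact hK1.add hK2

private theorem euh_lip_const_mul {f : P → ℝ} (a : ℝ) (h : ∃ K, LipschitzWith K f) :
    ∃ K, LipschitzWith K fun v => a * f v := by
  obtain ⟨K, hK⟩ := h
  refine ⟨Real.nnabs a * K, LipschitzWith.of_dist_le_mul fun x y => ?_⟩
  have h1 := hK.dist_le_mul x y
  rw [Real.dist_eq] at h1 ⊢
  rw [← mul_sub, abs_mul, NNReal.coe_mul, Real.coe_nnabs, mul_assoc]
  exact mul_le_mul_of_nonneg_left h1 (abs_nonneg a)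

theorem lip_uf (κ : KS) : ∃ K, LipschitzWith K (uf κ) := by
  rw [euh_uf]
  exact euh_lip_sum _ _ fun i _ => euh_lip_T _ _ _ _

/-- The derivatives of `uf κ` are Lipschitz. -/
theorem lip_d_uf (κ : KS) : (∃ K, LipschitzWith K (d1 (uf κ))) ∧
    ∃ K, LipschitzWith K (d2 (uf κ)) := by
  have h1 : ∀ v w : P, fderiv ℝ (uf κ) v w = ∑ i : Fin 3,
      fderiv ℝ (euhT (Ci κ i * (Real.pi / √3)) 0 (Bi κ i * (Real.pi / 3)) 0) v w := by
    intro v w
    rw [euh_uf]
    have h2 := HasFDerivAt.fun_sum (u := (Finset.univ : Finset (Fin 3))) fun i _ =>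
      euh_hasF (Ci κ i * (Real.pi / √3)) 0 (Bi κ i * (Real.pi / 3)) 0 v
    rw [h2.fderiv, sum_apply]
    refine Finset.sum_congr rfl fun i _ => ?_
    rw [(euh_hasF (Ci κ i * (Real.pi / √3)) 0 (Bi κ i * (Real.pi / 3)) 0 v).fderiv]
  constructor
  · have h2 : d1 (uf κ) = fun v => ∑ i : Fin 3, Ci κ i * (Real.pi / √3) *
        euhT (Ci κ i * (Real.pi / √3)) (0 + Real.pi / 2) (Bi κ i * (Real.pi / 3)) 0 v := by
      funext v
      refine (h1 v (1, 0)).trans (Finset.sum_congr rfl fun i _ => ?_)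
      exact euh_d1_T _ _ _ _ v
    rw [h2]
    exact euh_lip_sum _ _ fun i _ => euh_lip_const_mul _ (euh_lip_T _ _ _ _)
  · have h2 : d2 (uf κ) = fun v => ∑ i : Fin 3, Bi κ i * (Real.pi / 3) *
        euhT (Ci κ i * (Real.pi / √3)) 0 (Bi κ i * (Real.pi / 3)) (0 + Real.pi / 2) v := by
      funext v
      refine (h1 v (0, 1)).trans (Finset.sum_congr rfl fun i _ => ?_)
      exact euh_d2_T _ _ _ _ v
    rw [h2]
    exact euh_lip_sum _ _ fun i _ => euh_lip_const_mul _ (euh_lip_T _ _ _ _)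

/-- The eigenfunction on the reference triangle. -/
noncomputable def uh {m : ℕ} (th : Fin m → ℝ) (κ : KS) : P → ℝ := pull (cs th) (uf κ)

theorem uh_Tri {m : ℕ} (th : Fin m → ℝ) (κ : KS) {v : P} (hv : v ∈ Tri) :
    uh th κ v = uf κ (Fm (cs th) v) := by
  unfold uh pull
  exact indicator_of_mem hv _

theorem uh_zero {m : ℕ} (th : Fin m → ℝ) (κ : KS) {v : P} (hv : v ∉ Tri) :
    uh th κ v = 0 := by
  unfold uh pull
  exact indicator_of_notMem hv _

private theorem euh_closure {v : P} (hv : v ∈ frontier Tri) :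
    0 ≤ v.1 ∧ 0 ≤ v.2 ∧ v.1 + v.2 ≤ 1 ∧ (v.1 = 0 ∨ v.2 = 0 ∨ v.1 + v.2 = 1) := by
  have hcl : IsClosed {v : P | 0 ≤ v.1 ∧ 0 ≤ v.2 ∧ v.1 + v.2 ≤ 1} := by
    have h1 : IsClosed {v : P | 0 ≤ v.1} := isClosed_le continuous_const continuous_fst
    have h2 : IsClosed {v : P | 0 ≤ v.2} := isClosed_le continuous_const continuous_snd
    have h3 : IsClosed {v : P | v.1 + v.2 ≤ 1} :=
      isClosed_le (continuous_fst.add continuous_snd) continuous_const
    exact h1.inter (h2.inter h3)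
  have hsub : Tri ⊆ {v : P | 0 ≤ v.1 ∧ 0 ≤ v.2 ∧ v.1 + v.2 ≤ 1} := by
    intro w hw
    have h1 : 0 ≤ w.1 ∧ 0 ≤ w.2 ∧ w.1 + w.2 ≤ 1 := ⟨hw.1.le, hw.2.1.le, hw.2.2.le⟩
    exact h1
  have h1 : 0 ≤ v.1 ∧ 0 ≤ v.2 ∧ v.1 + v.2 ≤ 1 :=
    closure_minimal hsub hcl (frontier_subset_closure hv)
  have h2 : v ∉ Tri := by
    intro h3
    have h4 : v ∈ Tri ∩ frontier Tri := ⟨h3, hv⟩
    rw [isOpen_Tri.inter_frontier_eq] at h4
    exact h4
  obtain ⟨h3, h4, h5⟩ := h1
  refine ⟨h3, h4, h5, ?_⟩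
  by_contra hcon
  push Not at hcon
  exact h2 ⟨lt_of_le_of_ne h3 (Ne.symm hcon.1), lt_of_le_of_ne h4 (Ne.symm hcon.2.1),
    lt_of_le_of_ne h5 hcon.2.2⟩

private theorem euh_nd_zero {m : ℕ} (th : Fin m → ℝ) : nd th 0 = 0 := by
  rw [nd, dif_neg (by omega), if_pos rfl]

private theorem euh_nd_last {m : ℕ} (th : Fin m → ℝ) : nd th (m + 1) = 1 := by
  rw [nd, dif_neg (by omega), if_neg (by omega)]

private theorem euh_left {m : ℕ} (th : Fin m → ℝ) {v : P} (h1 : v.1 = 0) (h2 : 0 ≤ v.2) :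
    (Fm (cs th) v).1 = √3 := by
  have hm : (m : ℝ) + 1 ≠ 0 := by positivity
  have ht : t0 m m ≤ 1 := by
    have h3 := t0_lt m (Nat.lt_succ_self m)
    rw [t0_last] at h3
    exact h3.le
  have hv : v ∈ CS m m := by
    refine ⟨⟨h1.ge, h2⟩, ?_, ?_⟩
    · rw [h1, zero_add]
      exact mul_le_of_le_one_left h2 ht
    · rw [h1, zero_add, t0_last, one_mul]
  rw [Fm_CS (cs th) le_rfl hv, Lj_eq, WW_cs, WW_cs, pB_cs, t0_last, euh_nd_last, h1]
  simp only [Prod.smul_mk, Prod.mk_add_mk, smul_eq_mul]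
  ring

private theorem euh_bottom {m : ℕ} (th : Fin m → ℝ) {v : P} (h1 : 0 ≤ v.1) (h2 : v.2 = 0) :
    Fm (cs th) v = (√3 * (1 - v.1), 1 - v.1) := by
  have hm : (m : ℝ) + 1 ≠ 0 := by positivity
  have hv : v ∈ CS m 0 := by
    refine ⟨⟨h1, h2.ge⟩, ?_, ?_⟩
    · rw [t0_zero, zero_mul]
      exact h2.ge
    · rw [h2, add_zero]
      exact mul_nonneg (t0_nonneg m 1) h1
  have h3 : t0 m (0 + 1) = 1 / ((m : ℝ) + 1) := by
    rw [t0_succ, t0_zero, zero_add]
  rw [Fm_CS (cs th) (Nat.zero_le m) hv, Lj_eq, WW_cs, WW_cs, pB_cs, h3, euh_nd_zero, h2, t0_zero]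
  simp only [Prod.smul_mk, Prod.mk_add_mk, smul_eq_mul]
  apply Prod.ext
  · change √3 + ((m + 1) * (1 / ((m : ℝ) + 1) * (v.1 + 0) - 0) * (√3 * 0 - √3) +
      (m + 1) * (0 - 0 * (v.1 + 0)) * (√3 * nd th (0 + 1) - √3)) = √3 * (1 - v.1)
    field_simp
    ring
  · change 1 + ((m + 1) * (1 / ((m : ℝ) + 1) * (v.1 + 0) - 0) * -1 +
      (m + 1) * (0 - 0 * (v.1 + 0)) * -1) = 1 - v.1
    field_simp
    ring

theorem lip_uh {m : ℕ} (th : Fin m → ℝ) (h : th ∈ MK m) (κ : KS) :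
    ∃ K, LipschitzWith K (uh th κ) := by
  obtain ⟨K, hK⟩ := lip_uf κ
  obtain ⟨K', hK'⟩ := lipschitz_Fm (cs th)
  refine ⟨K * K', lip_zero (hK.comp hK') fun v hv => ?_⟩
  obtain ⟨h1, h2, h3, h4⟩ := euh_closure hv
  rcases h4 with h5 | h5 | h5
  · have h6 := euh_left th h5 h2
    have h7 : Fm (cs th) v = (√3, (Fm (cs th) v).2) := Prod.ext h6 rfl
    rw [h7]
    exact uf_bd2 κ _
  · rw [euh_bottom th h1 h5]
    exact uf_bd3 κ _
  · have h6 := Fm_cs_snd (th := th) (v := v) ⟨h1, h2⟩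
    rw [h5, sub_self] at h6
    have h7 : Fm (cs th) v = ((Fm (cs th) v).1, 0) := Prod.ext rfl h6
    rw [h7]
    exact uf_bd1 κ _

private theorem euh_diff (κ : KS) (x : P) : DifferentiableAt ℝ (uf κ) x :=
  (cd_uf κ 1).differentiable (by norm_num) x

theorem uh_d1 {m : ℕ} (th : Fin m → ℝ) (κ : KS) {j : ℕ} (hj : j ≤ m) {v : P}
    (hv : v ∈ Sec m j) : d1 (uh th κ) v = (La (cs th) j).1 * d1 (uf κ) (Fm (cs th) v) +
      (La (cs th) j).2 * d2 (uf κ) (Fm (cs th) v) := by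
  unfold uh
  rw [d1_pull (cs th) (uf κ) (Sec_subset_Tri m j hv), d1_Fm (cs th) hj hv (euh_diff κ _)]

theorem uh_d2 {m : ℕ} (th : Fin m → ℝ) (κ : KS) {j : ℕ} (hj : j ≤ m) {v : P}
    (hv : v ∈ Sec m j) : d2 (uh th κ) v = (Lb (cs th) j).1 * d1 (uf κ) (Fm (cs th) v) +
      (Lb (cs th) j).2 * d2 (uf κ) (Fm (cs th) v) := by
  unfold uh
  rw [d2_pull (cs th) (uf κ) (Sec_subset_Tri m j hv), d2_Fm (cs th) hj hv (euh_diff κ _)]

private theorem euh_cont {m : ℕ} (th : Fin m → ℝ) (κ : KS) (w : P) :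
    Continuous fun v => w.1 * d1 (uf κ) (Fm (cs th) v) + w.2 * d2 (uf κ) (Fm (cs th) v) := by
  obtain ⟨K', hK'⟩ := lipschitz_Fm (cs th)
  have h1 : Continuous (d1 (uf κ)) := (cd_d1_uf κ 0).continuous
  have h2 : Continuous (d2 (uf κ)) := (cd_d2_uf κ 0).continuous
  exact (continuous_const.mul (h1.comp hK'.continuous)).add
    (continuous_const.mul (h2.comp hK'.continuous))

theorem cont_d1_uh {m : ℕ} (th : Fin m → ℝ) (κ : KS) :
    ∀ᵐ v ∂muT, ContinuousAt (d1 (uh th κ)) v := by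
  filter_upwards [ae_Sec m] with v hv
  obtain ⟨j, hj⟩ := hv
  refine ((euh_cont th κ (La (cs th) j)).continuousAt (x := v)).congr ?_
  filter_upwards [(isOpen_Sec m j).mem_nhds hj] with w hw
  exact (uh_d1 th κ (Nat.lt_succ_iff.1 j.2) hw).symm

theorem cont_d2_uh {m : ℕ} (th : Fin m → ℝ) (κ : KS) :
    ∀ᵐ v ∂muT, ContinuousAt (d2 (uh th κ)) v := by
  filter_upwards [ae_Sec m] with v hv
  obtain ⟨j, hj⟩ := hv
  refine ((euh_cont th κ (Lb (cs th) j)).continuousAt (x := v)).congr ?_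
  filter_upwards [(isOpen_Sec m j).mem_nhds hj] with w hw
  exact (uh_d2 th κ (Nat.lt_succ_iff.1 j.2) hw).symm

end Pool.Agent.MP4eed4eP.PE
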