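import Pool.Agent.Lib.MP_4eed4e_an_PE.EUh
import Pool.Agent.Lib.MP_4eed4e_an_PC.CBase

set_option autoImplicit false

/-!
Project P, block E, module EGre: Green's formula on `T0`.

`green`: all integrals over `T0` are integrals over `P` (`F` and its derivatives vanish off `T0`:
`d1_zero_of_notMem`, `setIntegral_eq_integral_of_forall_compl_eq_zero`).
`LipschitzWith.integral_lineDeriv_mul_eq` (`Mathlib/Analysis/Calculus/Rademacher.lean`, for two
Lipschitz functions, one of them with compact support) with the functions `d1 (uf κ)` and `F`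
(`lip_d_uf`) and the vector `(1, 0)` gives `∫ d1 (d1 uf) F = -∫ d1 F d1 uf`; the same for the second
partial derivative (`lineDeriv` is `fderiv` at points of differentiability,
`DifferentiableAt.lineDeriv_eq_fderiv`, a.e. by Rademacher for `F`). Add the two identities and use
`lap_uf`.
-/

namespace Pool.Agent.MP4eed4eP.PE

open MeasureTheory Set Filter Topology

private theorem green_ibp {w F : P → ℝ} {K K' : NNReal} (hw : LipschitzWith K w)
    (hF : LipschitzWith K' F) (hc : HasCompactSupport F) (v : P) :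
    ∫ y, fderiv ℝ w y v * F y = -∫ y, fderiv ℝ F y v * w y := by
  have h1 := LipschitzWith.integral_lineDeriv_mul_eq (μ := (volume : Measure P)) hw hF hc v
  have h2 : ∫ y, lineDeriv ℝ w y v * F y = ∫ y, fderiv ℝ w y v * F y := by
    refine integral_congr_ae ?_
    filter_upwards [hw.ae_differentiableAt] with y hy
    rw [hy.lineDeriv_eq_fderiv]
  have h3 : ∫ y, lineDeriv ℝ F y (-v) * w y = ∫ y, -(fderiv ℝ F y v * w y) := by
    refine integral_congr_ae ?_
    filter_upwards [hF.ae_differentiableAt] with y hy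
    rw [hy.lineDeriv_eq_fderiv, map_neg, neg_mul]
  rw [h2, h3, integral_neg] at h1
  exact h1

theorem green (κ : KS) {F : P → ℝ} (hF : LipC T0 F) :
    ∫ y in T0, (d1 (uf κ) y * d1 F y + d2 (uf κ) y * d2 F y) =
      (mu κ)⁻¹ * ∫ y in T0, uf κ y * F y := by
  obtain ⟨⟨K, hK⟩, hcs, hsup⟩ := id hF
  obtain ⟨⟨K1, hK1⟩, ⟨K2, hK2⟩⟩ := lip_d_uf κ
  have e1 := green_ibp hK1 hK hcs (1, 0)
  have e2 := green_ibp hK2 hK hcs (0, 1)
  have hc1 : Continuous (d1 (uf κ)) := hK1.continuous
  have hc2 : Continuous (d2 (uf κ)) := hK2.continuous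
  have hc0 : Continuous (uf κ) := by
    obtain ⟨K0, hK0⟩ := lip_uf κ
    exact hK0.continuous
  -- all integrals over the plane
  have hz0 : ∀ y, y ∉ T0 → F y = 0 := fun y hy =>
    image_eq_zero_of_notMem_tsupport fun h => hy (hsup h)
  have hz1 : ∀ y, y ∉ T0 → d1 F y = 0 := fun y hy => d1_zero_of_notMem fun h => hy (hsup h)
  have hz2 : ∀ y, y ∉ T0 → d2 F y = 0 := fun y hy => d2_zero_of_notMem fun h => hy (hsup h)
  have i1 : ∫ y in T0, (d1 (uf κ) y * d1 F y + d2 (uf κ) y * d2 F y) =
      ∫ y, (d1 (uf κ) y * d1 F y + d2 (uf κ) y * d2 F y) := by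
    refine setIntegral_eq_integral_of_forall_compl_eq_zero fun y hy => ?_
    rw [hz1 y hy, hz2 y hy, mul_zero, mul_zero, add_zero]
  have i2 : ∫ y in T0, uf κ y * F y = ∫ y, uf κ y * F y := by
    refine setIntegral_eq_integral_of_forall_compl_eq_zero fun y hy => ?_
    rw [hz0 y hy, mul_zero]
  rw [i1, i2]
  -- integrability
  have hFb : ∀ (w : P → ℝ), Continuous w → Integrable (fun y => w y * d1 F y) ∧
      Integrable (fun y => w y * d2 F y) := by
    intro w hw
    obtain ⟨C, hC⟩ := (hcs.isCompact.exists_bound_of_continuousOn hw.continuousOn)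
    have hfin : volume (tsupport F) < ⊤ := hcs.isCompact.measure_lt_top
    have key : ∀ g : P → ℝ, Measurable g → (∀ y, |g y| ≤ K) → (∀ y, y ∉ tsupport F → g y = 0) →
        Integrable (fun y => w y * g y) := by
      intro g hg hgb hg0
      have h1 : IntegrableOn (fun y => w y * g y) (tsupport F) := by
        refine IntegrableOn.of_bound hfin
          (hw.measurable.mul hg).aestronglyMeasurable (C * K) ?_
        refine (ae_restrict_iff' (isClosed_tsupport F).measurableSet).2
          (Eventually.of_forall fun y hy => ?_)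
        rw [norm_mul]
        have h2 : 0 ≤ C := (norm_nonneg _).trans (hC y hy)
        exact mul_le_mul (hC y hy) (by rw [Real.norm_eq_abs]; exact hgb y) (norm_nonneg _) h2
      refine (integrableOn_iff_integrable_of_support_subset fun y hy => ?_).1 h1
      by_contra h3
      apply hy
      show w y * g y = 0
      rw [hg0 y h3, mul_zero]
    exact ⟨key _ (measurable_d1 F) (abs_d1_le hK) fun y hy => d1_zero_of_notMem hy,
      key _ (measurable_d2 F) (abs_d2_le hK) fun y hy => d2_zero_of_notMem hy⟩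
  have hmulF : ∀ g : P → ℝ, Continuous g → Integrable (fun y => g y * F y) := fun g hg =>
    (hg.mul hK.continuous).integrable_of_hasCompactSupport hcs.mul_left
  have hcd : ∀ g : P → ℝ, ContDiff ℝ 1 g → Continuous (d1 g) ∧ Continuous (d2 g) := fun g hg =>
    ⟨(hg.continuous_fderiv one_ne_zero).clm_apply continuous_const,
      (hg.continuous_fderiv one_ne_zero).clm_apply continuous_const⟩
  have hcc1 : Continuous (d1 (d1 (uf κ))) := (hcd _ (by exact_mod_cast cd_d1_uf κ 1)).1
  have hcc2 : Continuous (d2 (d2 (uf κ))) := (hcd _ (by exact_mod_cast cd_d2_uf κ 1)).2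
  have j1 : ∫ y, d1 (uf κ) y * d1 F y = -∫ y, d1 (d1 (uf κ)) y * F y := by
    have h1 : ∫ y, d1 (d1 (uf κ)) y * F y = -∫ y, d1 F y * d1 (uf κ) y := e1
    rw [h1, neg_neg]
    exact integral_congr_ae (Eventually.of_forall fun y => mul_comm _ _)
  have j2 : ∫ y, d2 (uf κ) y * d2 F y = -∫ y, d2 (d2 (uf κ)) y * F y := by
    have h1 : ∫ y, d2 (d2 (uf κ)) y * F y = -∫ y, d2 F y * d2 (uf κ) y := e2
    rw [h1, neg_neg]
    exact integral_congr_ae (Eventually.of_forall fun y => mul_comm _ _)
  rw [integral_add (hFb _ hc1).1 (hFb _ hc2).2, j1, j2, ← neg_add,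
    ← integral_add (hmulF _ hcc1) (hmulF _ hcc2), ← integral_neg, ← integral_const_mul]
  refine integral_congr_ae (Eventually.of_forall fun y => ?_)
  have h1 := lap_uf κ y
  show -(d1 (d1 (uf κ)) y * F y + d2 (d2 (uf κ)) y * F y) = (mu κ)⁻¹ * (uf κ y * F y)
  linear_combination (-F y) * h1

end Pool.Agent.MP4eed4eP.PE
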