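import Pool.Agent.Lib.MP_4eed4e_an_PE.EUh
import Pool.Agent.Lib.MP_4eed4e_an_PD.DOp

set_option autoImplicit false

/-!
Project P, block E, module ECpl: completeness of the eigenfunctions.

`cpl_uh`: let `c = cs th`, let `f0 : P → ℝ` be the representative of `f` (`Lp.memLp f`,
`Lp.stronglyMeasurable f`, `clT_coe`). Put `f1 = ∑ j : Fin (m+1), (Sec m j).indicator (rho_j⁻¹ f0)`
and `hh = push c f1` (`= (Dom c).indicator (f1 ∘ Gm c)`), measurable (`Gm c` is continuous).
For `v ∈ Sec m j`: `hh (Fm c v) = rho_j⁻¹ f0 v` (`Gm_spec`, `Fm_mem_Dom`, `disj_Sec`).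

* `hh ∈ L²(T0)`: `T0 = Dom c` (`Dom_cs`) is a.e. the union of the images `Fm c '' Sec m j`; on each
  image `hh²` is integrable because `(hh ∘ Fm)² = rho_j⁻² f0²` is integrable on `Sec m j`
  (`integrableOn_image_iff_integrableOn_abs_det_fderiv_smul`, exactly as in the proofs of
  `integrableOn_Fm`, `integral_Dom` in `_PD/DVar.lean`; the private lemmas there may be copied).
  (`memLp_two_iff_integrable_sq`.)
* For every `κ`: `∫_{T0} uf κ hh = ∑_j J_j ∫_{Sec j} uf κ (Fm v) hh (Fm v)` (`integral_Dom`)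
  `= ∑_j rho_j ∫_{Sec j} uh f0` (`rho_sq`) `= ⟨RT (clT uh), f⟩ = 0`
  (`RT c = ∑ j, rho j c • chi m j`, `inner_chi`).
* By `complete_uf` `hh = 0` a.e. on `T0`, so (`ae_Fm`) `rho_j⁻¹ f0 = 0` a.e. on `Sec m j`, and
  `f0 = 0` a.e. on `Tri` (`ae_Sec`), `f = 0`.
-/

namespace Pool.Agent.MP4eed4eP.PE

open MeasureTheory Set Filter Topology

/-! ### The linear maps on the sectors (as in `_PD/DVar.lean`) -/

private noncomputable def ecplL {m : ℕ} (c : Par m) (j : ℕ) : P →L[ℝ] P :=
  (ContinuousLinearMap.fst ℝ ℝ ℝ).smulRight (La c j) +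
    (ContinuousLinearMap.snd ℝ ℝ ℝ).smulRight (Lb c j)

private theorem ecplL_apply {m : ℕ} (c : Par m) (j : ℕ) (v : P) :
    ecplL c j v = Lj c j v := rfl

private theorem ecplL_det' {m : ℕ} (c : Par m) (j : ℕ) :
    LinearMap.det (ecplL c j : P →ₗ[ℝ] P) = Jj c j := by
  rw [← LinearMap.det_toMatrix (Module.Basis.finTwoProd ℝ), Matrix.det_fin_two]
  simp only [LinearMap.toMatrix_apply, Module.Basis.finTwoProd_zero,
    Module.Basis.finTwoProd_one, Module.Basis.coe_finTwoProd_repr, ContinuousLinearMap.coe_coe,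
    ecplL_apply, Lj, Jj, det2]
  simp
  ring

private theorem ecplL_det {m : ℕ} (c : Par m) (j : ℕ) : (ecplL c j).det = Jj c j :=
  ecplL_det' c j

private theorem ecpl_deriv {m : ℕ} (c : Par m) {j : ℕ} (hj : j ≤ m) (v : P) (hv : v ∈ Sec m j) :
    HasFDerivWithinAt (Fm c) (ecplL c j) (Sec m j) v := by
  have h1 : HasFDerivWithinAt (fun w : P => pB c + ecplL c j w) (ecplL c j) (Sec m j) v :=
    ((ecplL c j).hasFDerivAt.const_add (pB c)).hasFDerivWithinAt
  refine h1.congr (fun w hw => ?_) ?_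
  · rw [Fm_Sec c hj hw]
    rfl
  · rw [Fm_Sec c hj hv]
    rfl

private theorem ecpl_inj {m : ℕ} {c : Par m} (hc : c ∈ CM m) (j : ℕ) :
    InjOn (Fm c) (Sec m j) :=
  (injOn_Fm hc).mono (subset_trans (fun _ h => h.1) Tri_subset_Quad)

private theorem ecpl_union {m : ℕ} (c : Par m) :
    Dom c =ᵐ[volume] ⋃ j : Fin (m + 1), Fm c '' Sec m j := by
  refine Filter.EventuallyLE.antisymm ?_ ?_
  · have h2 := (ae_restrict_iff' measurableSet_Tri).1 (ae_Sec m)
    obtain ⟨K, hK⟩ := lipschitz_Fm c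
    have h3 : volume {v : P | ¬ (v ∈ Tri → ∃ j : Fin (m + 1), v ∈ Sec m j)} = 0 := h2
    have h4 := hK.hausdorffMeasure_image_le (d := 2) (by norm_num)
      {v : P | ¬ (v ∈ Tri → ∃ j : Fin (m + 1), v ∈ Sec m j)}
    rw [hausdorffMeasure_prod_real, h3, mul_zero] at h4
    have h5 : ∀ᵐ y : P, y ∉ Fm c '' {v : P | ¬ (v ∈ Tri → ∃ j : Fin (m + 1), v ∈ Sec m j)} := by
      rw [ae_iff]
      simp only [not_not]
      exact le_antisymm h4 zero_le
    filter_upwards [h5] with y hy hyD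
    obtain ⟨v, hv, rfl⟩ := hyD
    have h6 : v ∈ Tri → ∃ j : Fin (m + 1), v ∈ Sec m j := by
      by_contra hcon
      exact hy ⟨v, hcon, rfl⟩
    obtain ⟨j, hj⟩ := h6 hv
    exact Set.mem_iUnion.2 ⟨j, v, hj, rfl⟩
  · refine Filter.Eventually.of_forall fun v hv => ?_
    obtain ⟨j, hj⟩ := Set.mem_iUnion.1 hv
    exact Set.image_mono (Sec_subset_Tri m j) hj

private theorem ecpl_int {m : ℕ} {c : Par m} (hc : c ∈ CM m) {h : P → ℝ}
    (hi : ∀ j : Fin (m + 1), IntegrableOn (fun v => h (Fm c v)) (Sec m j)) :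
    IntegrableOn h (Dom c) := by
  refine IntegrableOn.congr_set_ae ?_ (ecpl_union c)
  rw [integrableOn_finite_iUnion]
  intro j
  have hj := Nat.lt_succ_iff.1 j.2
  rw [integrableOn_image_iff_integrableOn_abs_det_fderiv_smul volume (measurableSet_Sec m j)
    (ecpl_deriv c hj) (ecpl_inj hc j)]
  simp only [ecplL_det, abs_of_pos (Jj_pos hc hj), smul_eq_mul]
  exact Integrable.const_mul (hi j) _

private theorem ecpl_bd (κ : KS) (v : P) : |uf κ v| ≤ 3 := by
  unfold uf
  refine (Finset.abs_sum_le_sum_abs _ _).trans ?_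
  have h1 : ∀ i ∈ (Finset.univ : Finset (Fin 3)), |Real.sin (Ci κ i * (Real.pi * v.1 / √3)) *
      Real.sin (Bi κ i * (Real.pi * v.2 / 3))| ≤ 1 := by
    intro i _
    rw [abs_mul]
    exact mul_le_one₀ (Real.abs_sin_le_one _) (abs_nonneg _) (Real.abs_sin_le_one _)
  refine (Finset.sum_le_sum h1).trans ?_
  simp

private theorem ecpl_memLp {m : ℕ} (th : Fin m → ℝ) (κ : KS) : MemLp (uh th κ) 2 muT := by
  obtain ⟨K, hK⟩ := lipschitz_Fm (cs th)
  have hm : Measurable (uh th κ) :=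
    Measurable.indicator (((contDiff_uf κ).continuous.comp hK.continuous).measurable)
      measurableSet_Tri
  refine memLp_bdd hm (C := 3) fun x => ?_
  by_cases hx : x ∈ Tri
  · rw [uh_Tri th κ hx]
    exact ecpl_bd κ _
  · rw [uh_zero th κ hx, abs_zero]
    norm_num

theorem cpl_uh {m : ℕ} (th : Fin m → ℝ) (h : th ∈ MK m) (f : LL)
    (hf : ∀ κ, (inner ℝ (RT (cs th) (clT (uh th κ))) f : ℝ) = 0) : f = 0 := by
  classical
  have hc := cs_mem th h
  have hJ : ∀ j : Fin (m + 1), 0 < rho j (cs th) := fun j => (rho_sq hc j).2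
  have hG : Continuous (Gm (cs th)) := by
    obtain ⟨K, hK⟩ := (Gm_spec hc).1
    exact hK.continuous
  have hf0 : MemLp (f : P → ℝ) 2 muT := Lp.memLp f
  have hfm : Measurable (f : P → ℝ) := (Lp.stronglyMeasurable f).measurable
  set f1 : P → ℝ := fun v => ∑ j : Fin (m + 1),
    (Sec m j).indicator (fun w => (rho j (cs th))⁻¹ * f w) v with hf1
  have hf1m : Measurable f1 :=
    Finset.measurable_fun_sum _ fun j _ => (hfm.const_mul _).indicator (measurableSet_Sec m j)
  set hh : P → ℝ := push (cs th) f1 with hhdef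
  have hhm : Measurable hh :=
    (hf1m.comp hG.measurable).indicator (isOpen_Dom hc).measurableSet
  have hval : ∀ (j : Fin (m + 1)) (v : P), v ∈ Sec m j →
      hh (Fm (cs th) v) = (rho j (cs th))⁻¹ * f v := by
    intro j v hv
    have hvT : v ∈ Tri := hv.1
    have h1 : hh (Fm (cs th) v) = f1 (Gm (cs th) (Fm (cs th) v)) :=
      indicator_of_mem (Fm_mem_Dom (cs th) hvT) _
    rw [h1, (Gm_spec hc).2.1 v (Tri_subset_Quad hvT)]
    change ∑ i : Fin (m + 1), (Sec m i).indicator (fun w => (rho i (cs th))⁻¹ * f w) v = _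
    rw [Finset.sum_eq_single j]
    · exact indicator_of_mem hv _
    · intro b _ hb
      have hne : (b : ℕ) ≠ (j : ℕ) := fun h => hb (Fin.ext h)
      exact indicator_of_notMem (fun hvb => Set.disjoint_left.1 (disj_Sec (m := m) hne) hvb hv) _
    · intro h
      exact absurd (Finset.mem_univ j) h
  have hfi : ∀ j : Fin (m + 1), IntegrableOn (fun v => (f v) ^ 2) (Sec m j) := fun j =>
    (hf0.integrable_sq).mono_measure (Measure.restrict_mono (Sec_subset_Tri m j) le_rfl)
  have hL2 : MemLp hh 2 (volume.restrict T0) := by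
    rw [memLp_two_iff_integrable_sq hhm.aestronglyMeasurable, ← Dom_cs th h]
    refine ecpl_int hc fun j => ?_
    refine (((hfi j).const_mul ((rho j (cs th))⁻¹ ^ 2)).congr ?_)
    filter_upwards [ae_restrict_mem (measurableSet_Sec m j)] with v hv
    rw [hval j v hv]
    ring
  have horth : ∀ κ, ∫ x in T0, uf κ x * hh x = 0 := by
    intro κ
    have hu := ecpl_memLp th κ
    have hint : ∀ j : Fin (m + 1), IntegrableOn (fun v => uh th κ v * f v) (Sec m j) := fun j =>
      (hu.integrable_mul hf0).mono_measure (Measure.restrict_mono (Sec_subset_Tri m j) le_rfl)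
    have hprod : ∀ j : Fin (m + 1), ∀ v ∈ Sec m j,
        (rho j (cs th))⁻¹ * (uh th κ v * f v) = uf κ (Fm (cs th) v) * hh (Fm (cs th) v) := by
      intro j v hv
      rw [hval j v hv, uh_Tri th κ hv.1]
      ring
    have hi : IntegrableOn (fun y => uf κ y * hh y) (Dom (cs th)) := by
      refine ecpl_int hc fun j => ?_
      refine ((hint j).const_mul ((rho j (cs th))⁻¹)).congr ?_
      filter_upwards [ae_restrict_mem (measurableSet_Sec m j)] with v hv
      exact hprod j v hv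
    rw [← Dom_cs th h, integral_Dom hc _ hi]
    have h2 := hf κ
    have h3 : (inner ℝ (RT (cs th) (clT (uh th κ))) f : ℝ) =
        ∑ j : Fin (m + 1), rho j (cs th) * ∫ v in Sec m j, uh th κ v * f v := by
      unfold RT PA.RR
      rw [ContinuousLinearMap.sum_apply, sum_inner]
      refine Finset.sum_congr rfl fun j _ => ?_
      rw [ContinuousLinearMap.smul_apply, real_inner_smul_left]
      congr 1
      rw [← inner_chi hu hf0, clT_coe]
    rw [h3] at h2
    rw [← h2]
    refine Finset.sum_congr rfl fun j _ => ?_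
    have h4 : ∫ v in Sec m j, uf κ (Fm (cs th) v) * hh (Fm (cs th) v) =
        ∫ v in Sec m j, (rho j (cs th))⁻¹ * (uh th κ v * f v) :=
      setIntegral_congr_fun (measurableSet_Sec m j) fun v hv => (hprod j v hv).symm
    rw [h4, integral_const_mul, ← (rho_sq hc j).1, ← mul_assoc]
    congr 1
    have h5 := (hJ j).ne'
    field_simp
  have hzero := complete_uf hh hL2 horth
  have hz2 : ∀ᵐ y : P, y ∈ T0 → hh y = 0 :=
    (ae_restrict_iff' isOpen_T0.measurableSet).1 hzero
  have hz3 : ∀ j : Fin (m + 1), ∀ᵐ v ∂volume.restrict (Sec m j), (f v : ℝ) = 0 := by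
    intro j
    have h6 := ae_Fm hc (Nat.lt_succ_iff.1 j.2) hz2
    filter_upwards [h6, ae_restrict_mem (measurableSet_Sec m j)] with v hv hvS
    have h7 : Fm (cs th) v ∈ T0 := by
      rw [← Dom_cs th h]
      exact Fm_mem_Dom (cs th) hvS.1
    have h8 := hv h7
    rw [hval j v hvS] at h8
    rcases mul_eq_zero.1 h8 with h9 | h9
    · exact absurd h9 (inv_ne_zero (hJ j).ne')
    · exact h9
  have hz4 : ∀ᵐ v ∂muT, (f v : ℝ) = 0 := by
    have h10 : ∀ᵐ v : P, ∀ j : Fin (m + 1), v ∈ Sec m j → (f v : ℝ) = 0 := by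
      rw [ae_all_iff]
      intro j
      exact (ae_restrict_iff' (measurableSet_Sec m j)).1 (hz3 j)
    filter_upwards [ae_Sec m, ae_restrict_of_ae h10] with v ⟨j, hj⟩ h11
    exact h11 j hj
  exact (Lp.eq_zero_iff_ae_eq_zero).2 hz4

end Pool.Agent.MP4eed4eP.PE
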