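import Pool.Agent.Lib.MP_4eed4e_an_PD.DAna

set_option autoImplicit false

/-!
Project P, block E, module EAlg: the derivatives of the coefficients of the forms.

Let `a = La c j`, `b = Lb c j`, `J = Jj c j = det2 a b`. `La`, `Lb` are linear in `WW c j`,
`WW c (j + 1)`, so the derivatives of `c ↦ La c j`, `c ↦ Lb c j` in the direction `w` are
`(dot φ a) • W`, `(dot φ b) • W`. The derivative of `J` is
`dot φ a * det2 W b + dot φ b * det2 a W = J * dot W φ` (`ring` after expanding), and with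
`A = dot a ξ`, `B = dot b ξ` the second formula is an identity of rational functions
(multiply by `J`; the derivative of `m11 = dot b b / J` is `(2 (dot φ b) (dot W b) J - dot b b J')
/ J²` and so on; `|A b - B a|² = J² |ξ|²`). One can work with the one variable functions
`s ↦ WW (c + s • w) j` (`HasDerivAt`) or with `HasFDerivAt`.

`diff_WW`: `WW c j` is a polynomial in the coordinates of `c` (`tt`, `rr` are coordinates or
constants).
-/

namespace Pool.Agent.MP4eed4eP.PE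

open Set Filter Topology

private theorem d_coord {m : ℕ} (i : Ix m) (c : Par m) :
    DifferentiableAt ℝ (fun c : Par m => c i) c :=
  (ContinuousLinearMap.proj (R := ℝ) (φ := fun _ : Ix m => ℝ) i).differentiableAt

private theorem d_tt {m : ℕ} (j : ℕ) (c : Par m) :
    DifferentiableAt ℝ (fun c : Par m => tt c j) c := by
  unfold tt
  split_ifs
  · exact d_coord _ c
  · exact differentiableAt_const _
  · exact differentiableAt_const _

private theorem d_rr {m : ℕ} (j : ℕ) (c : Par m) :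
    DifferentiableAt ℝ (fun c : Par m => rr c j) c := by
  unfold rr
  split_ifs
  · exact d_coord _ c
  · exact differentiableAt_const _

private theorem d_pB {m : ℕ} (c : Par m) : DifferentiableAt ℝ (fun c : Par m => pB c) c :=
  DifferentiableAt.prodMk ((d_coord _ c).mul (differentiableAt_const _))
    ((d_coord _ c).mul (differentiableAt_const _))

private theorem d_pA {m : ℕ} (c : Par m) : DifferentiableAt ℝ (fun c : Par m => pA c) c :=
  DifferentiableAt.prodMk (d_coord _ c) (d_coord _ c)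

theorem diff_WW {m : ℕ} (c : Par m) (j : ℕ) :
    DifferentiableAt ℝ (fun c : Par m => WW c j) c := by
  exact (d_rr j c).smul ((((differentiableAt_const _).sub (d_tt j c)).smul (d_pB c).neg).add
    ((d_tt j c).smul ((d_pA c).sub (d_pB c))))

/-- The derivative along a line. -/
private theorem line {m : ℕ} {E : Type*} [NormedAddCommGroup E] [NormedSpace ℝ E]
    {f : Par m → E} {c w : Par m} (hf : DifferentiableAt ℝ f c) {v : E}
    (h : HasDerivAt (fun s : ℝ => f (c + s • w)) v 0) : fderiv ℝ f c w = v := by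
  have h1 : HasLineDerivAt ℝ f (fderiv ℝ f c w) c w := hf.hasFDerivAt.hasLineDerivAt w
  exact HasDerivAt.unique (f := fun s : ℝ => f (c + s • w)) h1 h

private theorem line' {m : ℕ} {E : Type*} [NormedAddCommGroup E] [NormedSpace ℝ E]
    {f : Par m → E} {c w : Par m} (hf : DifferentiableAt ℝ f c) :
    HasDerivAt (fun s : ℝ => f (c + s • w)) (fderiv ℝ f c w) 0 :=
  hf.hasFDerivAt.hasLineDerivAt w

private theorem ln_La {m : ℕ} {c : Par m} {j : ℕ} (w : Par m)
    (W φ : P) (h1 : fderiv ℝ (fun c : Par m => WW c j) c w = dot φ (WW c j) • W)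
    (h2 : fderiv ℝ (fun c : Par m => WW c (j + 1)) c w = dot φ (WW c (j + 1)) • W) :
    HasDerivAt (fun s : ℝ => La (c + s • w) j) (dot φ (La c j) • W) 0 := by
  have e1 := line' (w := w) (diff_WW c j)
  have e2 := line' (w := w) (diff_WW c (j + 1))
  rw [h1] at e1
  rw [h2] at e2
  have e3 := ((e1.const_smul (t0 m (j + 1))).sub (e2.const_smul (t0 m j))).const_smul
    ((m : ℝ) + 1)
  have e4 : HasDerivAt (fun s : ℝ => La (c + s • w) j) _ 0 := e3
  refine e4.congr_deriv (Prod.ext ?_ ?_) <;> simp only [La, dot, Prod.smul_fst, Prod.smul_snd,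
    Prod.fst_sub, Prod.snd_sub, smul_eq_mul] <;> ring

private theorem ln_Lb {m : ℕ} {c : Par m} {j : ℕ} (w : Par m)
    (W φ : P) (h1 : fderiv ℝ (fun c : Par m => WW c j) c w = dot φ (WW c j) • W)
    (h2 : fderiv ℝ (fun c : Par m => WW c (j + 1)) c w = dot φ (WW c (j + 1)) • W) :
    HasDerivAt (fun s : ℝ => Lb (c + s • w) j) (dot φ (Lb c j) • W) 0 := by
  have e1 := line' (w := w) (diff_WW c j)
  have e2 := line' (w := w) (diff_WW c (j + 1))
  rw [h1] at e1
  rw [h2] at e2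
  have e3 := ((e2.const_smul (1 - t0 m j)).sub (e1.const_smul (1 - t0 m (j + 1)))).const_smul
    ((m : ℝ) + 1)
  have e4 : HasDerivAt (fun s : ℝ => Lb (c + s • w) j) _ 0 := e3
  refine e4.congr_deriv (Prod.ext ?_ ?_) <;> simp only [Lb, dot, Prod.smul_fst, Prod.smul_snd,
    Prod.fst_sub, Prod.snd_sub, smul_eq_mul] <;> ring

private theorem hd_fst {f : ℝ → P} {v : P} {s : ℝ} (h : HasDerivAt f v s) :
    HasDerivAt (fun s => (f s).1) v.1 s := h.fst

private theorem hd_snd {f : ℝ → P} {v : P} {s : ℝ} (h : HasDerivAt f v s) :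
    HasDerivAt (fun s => (f s).2) v.2 s := h.snd

private theorem hd_dot {f g : ℝ → P} {v u : P} {s : ℝ} (h : HasDerivAt f v s)
    (h' : HasDerivAt g u s) :
    HasDerivAt (fun s => dot (f s) (g s)) (dot v (g s) + dot (f s) u) s := by
  have e := ((hd_fst h).mul (hd_fst h')).add ((hd_snd h).mul (hd_snd h'))
  have e4 : HasDerivAt (fun s => dot (f s) (g s)) _ s := e
  refine e4.congr_deriv ?_
  simp only [dot]
  ring

private theorem ln_Jj {m : ℕ} {c : Par m} {j : ℕ} (w : Par m)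
    (W φ : P) (h1 : fderiv ℝ (fun c : Par m => WW c j) c w = dot φ (WW c j) • W)
    (h2 : fderiv ℝ (fun c : Par m => WW c (j + 1)) c w = dot φ (WW c (j + 1)) • W) :
    HasDerivAt (fun s : ℝ => Jj (c + s • w) j) (Jj c j * dot W φ) 0 := by
  have ha := ln_La w W φ h1 h2
  have hb := ln_Lb w W φ h1 h2
  have e := ((hd_fst ha).mul (hd_snd hb)).sub ((hd_snd ha).mul (hd_fst hb))
  have e4 : HasDerivAt (fun s : ℝ => Jj (c + s • w) j) _ 0 := e
  refine e4.congr_deriv ?_
  simp only [Jj, det2, dot, Prod.smul_fst, Prod.smul_snd, smul_eq_mul, zero_smul, add_zero]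
  ring

theorem fderiv_Jj {m : ℕ} {c : Par m} {j : ℕ} (w : Par m)
    (W φ : P) (h1 : fderiv ℝ (fun c : Par m => WW c j) c w = dot φ (WW c j) • W)
    (h2 : fderiv ℝ (fun c : Par m => WW c (j + 1)) c w = dot φ (WW c (j + 1)) • W) :
    fderiv ℝ (fun c : Par m => Jj c j) c w = Jj c j * dot W φ := by
  exact line (analyticAt_Jj j c).differentiableAt (ln_Jj w W φ h1 h2)

/-- The algebraic identity behind `fderiv_m`. -/
private theorem alg {a1 a2 b1 b2 W1 W2 p1 p2 x1 x2 J : ℝ} (hJ : J = a1 * b2 - a2 * b1)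
    (h0 : J ≠ 0) {A B fa fb : ℝ} (hA : A = a1 * x1 + a2 * x2) (hB : B = b1 * x1 + b2 * x2)
    (hfa : fa = p1 * a1 + p2 * a2) (hfb : fb = p1 * b1 + p2 * b2) :
    (2 * fb * (W1 * b1 + W2 * b2) * J - (b1 * b1 + b2 * b2) * (J * (W1 * p1 + W2 * p2))) /
        J ^ 2 * A ^ 2 +
      (-(fa * (W1 * b1 + W2 * b2) + fb * (a1 * W1 + a2 * W2)) * J +
        (a1 * b1 + a2 * b2) * (J * (W1 * p1 + W2 * p2))) / J ^ 2 * (2 * (A * B)) +
      (2 * fa * (W1 * a1 + W2 * a2) * J - (a1 * a1 + a2 * a2) * (J * (W1 * p1 + W2 * p2))) /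
        J ^ 2 * B ^ 2 =
      J * ((W1 * p1 + W2 * p2) * (x1 * x1 + x2 * x2) -
        2 * ((p1 * x1 + p2 * x2) * (W1 * x1 + W2 * x2))) := by
  have k1 : A * b1 - B * a1 = -(J * x2) := by rw [hA, hB, hJ]; ring
  have k2 : A * b2 - B * a2 = J * x1 := by rw [hA, hB, hJ]; ring
  have k3 : A * fb - B * fa = J * (x1 * p2 - x2 * p1) := by
    rw [hfa, hfb, hA, hB, hJ]; ring
  have k4 : A * (W1 * b1 + W2 * b2) - B * (W1 * a1 + W2 * a2) = J * (x1 * W2 - x2 * W1) := by
    rw [hA, hB, hJ]; ring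
  have k5 : A ^ 2 * (b1 * b1 + b2 * b2) - 2 * (A * B) * (a1 * b1 + a2 * b2) +
      B ^ 2 * (a1 * a1 + a2 * a2) = J ^ 2 * (x1 * x1 + x2 * x2) := by
    have : A ^ 2 * (b1 * b1 + b2 * b2) - 2 * (A * B) * (a1 * b1 + a2 * b2) +
      B ^ 2 * (a1 * a1 + a2 * a2) = (A * b1 - B * a1) ^ 2 + (A * b2 - B * a2) ^ 2 := by ring
    rw [this, k1, k2]
    ring
  have k6 : (2 * fb * (W1 * b1 + W2 * b2) * J - (b1 * b1 + b2 * b2) * (J * (W1 * p1 + W2 * p2)))
        * A ^ 2 +
      (-(fa * (W1 * b1 + W2 * b2) + fb * (a1 * W1 + a2 * W2)) * J +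
        (a1 * b1 + a2 * b2) * (J * (W1 * p1 + W2 * p2))) * (2 * (A * B)) +
      (2 * fa * (W1 * a1 + W2 * a2) * J - (a1 * a1 + a2 * a2) * (J * (W1 * p1 + W2 * p2)))
        * B ^ 2 = 2 * J * ((A * fb - B * fa) *
          (A * (W1 * b1 + W2 * b2) - B * (W1 * a1 + W2 * a2))) -
        J * (W1 * p1 + W2 * p2) * (A ^ 2 * (b1 * b1 + b2 * b2) -
          2 * (A * B) * (a1 * b1 + a2 * b2) + B ^ 2 * (a1 * a1 + a2 * a2)) := by
    ring
  rw [div_mul_eq_mul_div, div_mul_eq_mul_div, div_mul_eq_mul_div, ← add_div, ← add_div, k6,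
    k3, k4, k5, div_eq_iff (pow_ne_zero 2 h0)]
  ring

theorem fderiv_m {m : ℕ} {c : Par m} (hc : c ∈ CM m) {j : ℕ} (hj : j ≤ m) (w : Par m)
    (W φ : P) (h1 : fderiv ℝ (fun c : Par m => WW c j) c w = dot φ (WW c j) • W)
    (h2 : fderiv ℝ (fun c : Par m => WW c (j + 1)) c w = dot φ (WW c (j + 1)) • W) (ξ : P) :
    fderiv ℝ (fun c : Par m => m11 c j) c w * dot (La c j) ξ ^ 2 +
      fderiv ℝ (fun c : Par m => m12 c j) c w * (2 * (dot (La c j) ξ * dot (Lb c j) ξ)) +
      fderiv ℝ (fun c : Par m => m22 c j) c w * dot (Lb c j) ξ ^ 2 =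
      Jj c j * (dot W φ * dot ξ ξ - 2 * (dot φ ξ * dot W ξ)) := by
  obtain ⟨d1, d2, d3⟩ := analyticAt_m hc hj
  have h0 : Jj c j ≠ 0 := (Jj_pos hc hj).ne'
  have hz : c + (0 : ℝ) • w = c := by rw [zero_smul, add_zero]
  have h0' : Jj (c + (0 : ℝ) • w) j ≠ 0 := by rwa [hz]
  have ha := ln_La w W φ h1 h2
  have hb := ln_Lb w W φ h1 h2
  have hJ := ln_Jj w W φ h1 h2
  have e1 := line d1.differentiableAt ((hd_dot hb hb).div hJ h0')
  have e2 := line d2.differentiableAt ((hd_dot ha hb).neg.div hJ h0')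
  have e3 := line d3.differentiableAt ((hd_dot ha ha).div hJ h0')
  rw [e1, e2, e3]
  simp only [Pi.neg_apply, hz]
  have k := alg (W1 := W.1) (W2 := W.2) (p1 := φ.1) (p2 := φ.2) (x1 := ξ.1) (x2 := ξ.2)
    (a1 := (La c j).1) (a2 := (La c j).2) (b1 := (Lb c j).1) (b2 := (Lb c j).2)
    (J := Jj c j) rfl h0 (A := dot (La c j) ξ) (B := dot (Lb c j) ξ) (fa := dot φ (La c j))
    (fb := dot φ (Lb c j)) rfl rfl rfl rfl
  rw [show dot W φ = W.1 * φ.1 + W.2 * φ.2 from rfl,
    show dot ξ ξ = ξ.1 * ξ.1 + ξ.2 * ξ.2 from rfl,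
    show dot φ ξ = φ.1 * ξ.1 + φ.2 * ξ.2 from rfl,
    show dot W ξ = W.1 * ξ.1 + W.2 * ξ.2 from rfl, ← k]
  have q1 : dot (dot φ (Lb c j) • W) (Lb c j) + dot (Lb c j) (dot φ (Lb c j) • W) =
      2 * dot φ (Lb c j) * (W.1 * (Lb c j).1 + W.2 * (Lb c j).2) := by
    simp only [dot, Prod.smul_fst, Prod.smul_snd, smul_eq_mul]
    ring
  have q2 : dot (dot φ (La c j) • W) (Lb c j) + dot (La c j) (dot φ (Lb c j) • W) =
      dot φ (La c j) * (W.1 * (Lb c j).1 + W.2 * (Lb c j).2) +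
        dot φ (Lb c j) * ((La c j).1 * W.1 + (La c j).2 * W.2) := by
    simp only [dot, Prod.smul_fst, Prod.smul_snd, smul_eq_mul]
    ring
  have q3 : dot (dot φ (La c j) • W) (La c j) + dot (La c j) (dot φ (La c j) • W) =
      2 * dot φ (La c j) * (W.1 * (La c j).1 + W.2 * (La c j).2) := by
    simp only [dot, Prod.smul_fst, Prod.smul_snd, smul_eq_mul]
    ring
  have q4 : dot (Lb c j) (Lb c j) = (Lb c j).1 * (Lb c j).1 + (Lb c j).2 * (Lb c j).2 := rfl
  have q5 : dot (La c j) (Lb c j) = (La c j).1 * (Lb c j).1 + (La c j).2 * (Lb c j).2 := rfl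
  have q6 : dot (La c j) (La c j) = (La c j).1 * (La c j).1 + (La c j).2 * (La c j).2 := rfl
  simp only [q1, q2, q3, q4, q5, q6]
  ring

end Pool.Agent.MP4eed4eP.PE
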