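import Pool.Agent.Lib.MP_4eed4e_an_PC.CEmb

set_option autoImplicit false

/-!
Project P, block E, module EFun: Lipschitz functions which vanish off `Tri` define elements of `HH`.

Proof of `exists_HH`. Put `z = (1/3, 1/3) ∈ Tri`, `e n = 1 / (n + 1)` and
`f_n v = f (z + (1 + e n) • (v - z))`.

* `f_n` is Lipschitz with constant `2 K`; it vanishes off the set
  `K_n = {v | z + (1 + e n) • (v - z) ∈ closed triangle}`, where the closed triangle is
  `{v | 0 ≤ v.1 ∧ 0 ≤ v.2 ∧ v.1 + v.2 ≤ 1}` (compact); `K_n` is closed and bounded and contained in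
  `Tri` (the three linear functions `v.1`, `v.2`, `1 - v.1 - v.2` are `1/3` at `z`, and
  `l(v) = (l(z + (1+e)(v-z)) + e l(z)) / (1+e) > 0`). So `LipC Tri f_n` (`closure_minimal`).
* `d1 f_n v = (1 + e n) * d1 f (z + (1 + e n) • (v - z))` for all `v` (`fderiv` of the composition
  with an affine isomorphism; or only at the points where `f` is differentiable, which is a.e.; or
  use `fderiv_comp_smul`/`fderiv_comp_add_right`/`fderiv_comp_sub`), so `|d1 f_n| ≤ 2 K` and
  `d1 f_n v → d1 f v` for all `v` at which `d1 f` is continuous. The same for `d2`, and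
  `f_n v → f v` everywhere, `|f_n| ≤ C`.
* `‖clT a - clT b‖² = ∫_Tri (a - b)²` (`inner_clT`, `clT_add`, `clT_smul`), so by dominated
  convergence (`muT` is finite, constant bounds) `clT (d1 f_n) → clT (d1 f)`, the same for `d2` and
  `clT f_n → clT f`. So `prT (d1 f_n) (d2 f_n) → prT (d1 f) (d2 f)` in `VV`
  (continuity of `WithLp.toLp 2`, e.g. via `WithLp.prodContinuousLinearEquiv`).
* `prT (d1 f_n) (d2 f_n) = grdT ⟨f_n, _⟩ ∈ HH`, and `HH` is closed; this gives `g`, and
  `gH ⟨f_n, _⟩ → g` in `HH` (`tendsto_subtype_rng`); `ioT` is continuous and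
  `ioT (gH ⟨f_n, _⟩) = valT ⟨f_n, _⟩ = clT f_n` (`ioT_gH`), so `ioT g = clT f`
  (`tendsto_nhds_unique`).
-/

namespace Pool.Agent.MP4eed4eP.PE

open MeasureTheory Set Filter Topology

/-- the centre of the contraction -/
private noncomputable def eFun_z : P := (1 / 3, 1 / 3)

/-- the dilation with the factor `c` and the centre `z` -/
private noncomputable def eFun_A (c : ℝ) (v : P) : P := c • v + (eFun_z - c • eFun_z)

private theorem eFun_A_fst (c : ℝ) (v : P) : (eFun_A c v).1 = c * v.1 + (1 / 3 - c * (1 / 3)) := by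
  simp [eFun_A, eFun_z]

private theorem eFun_A_snd (c : ℝ) (v : P) : (eFun_A c v).2 = c * v.2 + (1 / 3 - c * (1 / 3)) := by
  simp [eFun_A, eFun_z]

private theorem eFun_A_cont (c : ℝ) : Continuous (eFun_A c) := by
  unfold eFun_A
  fun_prop

private theorem eFun_lip {f : P → ℝ} {K : NNReal} (hf : LipschitzWith K f) (c : ℝ) :
    LipschitzWith (K * ‖c‖₊) (fun v => f (eFun_A c v)) := by
  refine LipschitzWith.of_dist_le_mul fun x y => ?_
  refine (hf.dist_le_mul _ _).trans ?_
  have h1 : dist (eFun_A c x) (eFun_A c y) = ‖c‖ * dist x y := by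
    unfold eFun_A
    rw [dist_add_right, dist_smul₀]
  rw [h1, NNReal.coe_mul, coe_nnnorm, mul_assoc]

private theorem eFun_d1 (f : P → ℝ) (c : ℝ) (v : P) :
    d1 (fun v => f (eFun_A c v)) v = c * d1 f (eFun_A c v) := by
  have h1 : fderiv ℝ (fun v => f (eFun_A c v)) v = c • fderiv ℝ f (eFun_A c v) := by
    have h2 := fderiv_comp_smul (𝕜 := ℝ) (f := fun w => f (w + (eFun_z - c • eFun_z)))
      (x := v) c
    rw [fderiv_comp_add_right] at h2
    exact h2
  simp [d1, h1]

private theorem eFun_d2 (f : P → ℝ) (c : ℝ) (v : P) :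
    d2 (fun v => f (eFun_A c v)) v = c * d2 f (eFun_A c v) := by
  have h1 : fderiv ℝ (fun v => f (eFun_A c v)) v = c • fderiv ℝ f (eFun_A c v) := by
    have h2 := fderiv_comp_smul (𝕜 := ℝ) (f := fun w => f (w + (eFun_z - c • eFun_z)))
      (x := v) c
    rw [fderiv_comp_add_right] at h2
    exact h2
  simp [d2, h1]

private theorem eFun_lipC {f : P → ℝ} {K : NNReal} (hf : LipschitzWith K f)
    (h0 : ∀ v, v ∉ Tri → f v = 0) {c : ℝ} (hc : 1 < c) :
    LipC Tri (fun v => f (eFun_A c v)) := by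
  have hcl : IsClosed {v : P | 0 ≤ (eFun_A c v).1 ∧ 0 ≤ (eFun_A c v).2 ∧
      (eFun_A c v).1 + (eFun_A c v).2 ≤ 1} := by
    have hA := eFun_A_cont c
    have h1 : IsClosed {v : P | 0 ≤ (eFun_A c v).1} :=
      isClosed_le continuous_const (continuous_fst.comp hA)
    have h2 : IsClosed {v : P | 0 ≤ (eFun_A c v).2} :=
      isClosed_le continuous_const (continuous_snd.comp hA)
    have h3 : IsClosed {v : P | (eFun_A c v).1 + (eFun_A c v).2 ≤ 1} :=
      isClosed_le ((continuous_fst.comp hA).add (continuous_snd.comp hA)) continuous_const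
    exact h1.inter (h2.inter h3)
  have hsub : tsupport (fun v => f (eFun_A c v)) ⊆ Tri := by
    refine (closure_minimal ?_ hcl).trans ?_
    · intro v hv
      have h1 : eFun_A c v ∈ Tri := by
        by_contra h2
        exact hv (h0 _ h2)
      exact ⟨h1.1.le, h1.2.1.le, h1.2.2.le⟩
    · rintro v ⟨h1, h2, h3⟩
      rw [eFun_A_fst] at h1 h3
      rw [eFun_A_snd] at h2 h3
      have hc0 : 0 < c := by linarith
      refine ⟨?_, ?_, ?_⟩
      · refine pos_of_mul_pos_right (a := c) ?_ hc0.le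
        linarith
      · refine pos_of_mul_pos_right (a := c) ?_ hc0.le
        linarith
      · refine lt_of_mul_lt_mul_left (a := c) ?_ hc0.le
        linarith
  refine ⟨⟨_, eFun_lip hf c⟩, ?_, hsub⟩
  exact IsCompact.of_isClosed_subset (isCompact_Icc.prod isCompact_Icc) (isClosed_tsupport _)
    (hsub.trans Tri_subset)

/-- dominated convergence for classes -/
private theorem eFun_conv {a : ℕ → P → ℝ} {b : P → ℝ} {C : ℝ} (ha : ∀ n, Measurable (a n))
    (hb : Measurable b) (haC : ∀ n v, |a n v| ≤ C) (hbC : ∀ v, |b v| ≤ C)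
    (h : ∀ᵐ v ∂muT, Tendsto (fun n => a n v) atTop (𝓝 (b v))) :
    Tendsto (fun n => clT (a n)) atTop (𝓝 (clT b)) := by
  have hC : 0 ≤ C := (abs_nonneg _).trans (hbC 0)
  have m1 : ∀ n, MemLp (a n) 2 muT := fun n => memLp_bdd (ha n) (haC n)
  have m2 : MemLp b 2 muT := memLp_bdd hb hbC
  have h1 : ∀ n, ‖clT (a n) - clT b‖ ^ 2 = ∫ v in Tri, (a n v - b v) ^ 2 := by
    intro n
    have h2 : clT (a n) - clT b = clT (a n + (-1 : ℝ) • b) := by
      rw [clT_add (m1 n) (m2.const_smul _), clT_smul m2, neg_one_smul, sub_eq_add_neg]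
    have m3 : MemLp (a n + (-1 : ℝ) • b) 2 muT := (m1 n).add (m2.const_smul _)
    rw [h2, ← real_inner_self_eq_norm_sq, inner_clT m3 m3]
    refine integral_congr_ae (Eventually.of_forall fun v => ?_)
    simp only [Pi.add_apply, Pi.smul_apply, smul_eq_mul]
    ring
  have h3 : Tendsto (fun n => ∫ v in Tri, (a n v - b v) ^ 2) atTop (𝓝 0) := by
    have h4 : Tendsto (fun n => ∫ v in Tri, (a n v - b v) ^ 2) atTop
        (𝓝 (∫ v in Tri, (0 : ℝ))) := by
      refine tendsto_integral_of_dominated_convergence (fun _ => (2 * C) ^ 2) (fun n => ?_)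
        (integrable_const _) (fun n => ?_) ?_
      · exact (((ha n).sub hb).pow_const 2).aestronglyMeasurable
      · refine Eventually.of_forall fun v => ?_
        have h5 : |a n v - b v| ≤ 2 * C := by
          have := abs_sub (a n v) (b v)
          have := haC n v
          have := hbC v
          linarith
        rw [Real.norm_eq_abs, abs_pow]
        exact pow_le_pow_left₀ (abs_nonneg _) h5 2
      · filter_upwards [h] with v hv
        have h6 : Tendsto (fun n => (a n v - b v) ^ 2) atTop (𝓝 ((b v - b v) ^ 2)) :=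
          (hv.sub tendsto_const_nhds).pow 2
        simpa using h6
    simpa using h4
  rw [tendsto_iff_norm_sub_tendsto_zero]
  have h7 : Tendsto (fun n => √(∫ v in Tri, (a n v - b v) ^ 2)) atTop (𝓝 √0) :=
    (Real.continuous_sqrt.tendsto _).comp h3
  rw [Real.sqrt_zero] at h7
  refine h7.congr fun n => ?_
  rw [← h1 n, Real.sqrt_sq (norm_nonneg _)]

private noncomputable def eFun_c (n : ℕ) : ℝ := 1 + 1 / ((n : ℝ) + 1)

private theorem eFun_c_gt (n : ℕ) : 1 < eFun_c n := by
  unfold eFun_c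
  have : (0 : ℝ) < 1 / ((n : ℝ) + 1) := by positivity
  linarith

private theorem eFun_c_le (n : ℕ) : eFun_c n ≤ 2 := by
  unfold eFun_c
  have h1 : (0 : ℝ) ≤ n := Nat.cast_nonneg n
  have : 1 / ((n : ℝ) + 1) ≤ 1 := by
    rw [div_le_one (by linarith)]
    linarith
  linarith

private theorem eFun_c_tendsto : Tendsto eFun_c atTop (𝓝 1) := by
  have h := (tendsto_one_div_add_atTop_nhds_zero_nat (𝕜 := ℝ)).const_add 1
  rw [add_zero] at h
  exact h

private theorem eFun_A_tendsto (v : P) : Tendsto (fun n => eFun_A (eFun_c n) v) atTop (𝓝 v) := by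
  have h1 : Tendsto (fun n => eFun_A (eFun_c n) v) atTop
      (𝓝 ((1 : ℝ) • v + (eFun_z - (1 : ℝ) • eFun_z))) := by
    unfold eFun_A
    exact (eFun_c_tendsto.smul_const v).add
      (tendsto_const_nhds.sub (eFun_c_tendsto.smul_const eFun_z))
  simpa using h1

private theorem eFun_bdd {f : P → ℝ} {K : NNReal} (hf : LipschitzWith K f)
    (h0 : ∀ v, v ∉ Tri → f v = 0) (v : P) : |f v| ≤ K := by
  by_cases hv : v ∈ Tri
  · have h1 : f 0 = 0 := h0 0 (fun h => lt_irrefl _ h.1)
    have h2 := hf.dist_le_mul v 0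
    rw [h1, Real.dist_eq, sub_zero, dist_zero_right] at h2
    have h3 : ‖v‖ ≤ 1 := by
      obtain ⟨⟨h4, h5⟩, h6, h7⟩ := Tri_subset hv
      rw [Prod.norm_def, Real.norm_eq_abs, Real.norm_eq_abs, abs_of_nonneg h4, abs_of_nonneg h6]
      exact max_le h5 h7
    calc |f v| ≤ K * ‖v‖ := h2
      _ ≤ K * 1 := mul_le_mul_of_nonneg_left h3 K.2
      _ = K := mul_one _
  · rw [h0 v hv, abs_zero]
    exact K.2

private theorem eFun_dconv {f : P → ℝ} {D : (P → ℝ) → P → ℝ} {C : ℝ}
    (hm : ∀ g : P → ℝ, Measurable (D g)) (hC : ∀ v, |D f v| ≤ C)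
    (hD : ∀ c v, D (fun v => f (eFun_A c v)) v = c * D f (eFun_A c v))
    (hc : ∀ᵐ v ∂muT, ContinuousAt (D f) v) :
    Tendsto (fun n => clT (D (fun v => f (eFun_A (eFun_c n) v)))) atTop (𝓝 (clT (D f))) := by
  have hC0 : 0 ≤ C := (abs_nonneg _).trans (hC 0)
  refine eFun_conv (C := 2 * C) (fun n => hm _) (hm f) (fun n v => ?_) (fun v => ?_) ?_
  · rw [hD, abs_mul]
    refine mul_le_mul ?_ (hC _) (abs_nonneg _) (by norm_num)
    rw [abs_of_pos (by linarith [eFun_c_gt n])]
    exact eFun_c_le n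
  · have := hC v
    linarith
  · filter_upwards [hc] with v hv
    have h1 : Tendsto (fun n => eFun_c n * D f (eFun_A (eFun_c n) v)) atTop
        (𝓝 (1 * D f v)) := eFun_c_tendsto.mul (hv.tendsto.comp (eFun_A_tendsto v))
    rw [one_mul] at h1
    exact h1.congr fun n => (hD _ _).symm

theorem exists_HH {f : P → ℝ} {K : NNReal} (hf : LipschitzWith K f)
    (h0 : ∀ v, v ∉ Tri → f v = 0) (hc1 : ∀ᵐ v ∂muT, ContinuousAt (d1 f) v)
    (hc2 : ∀ᵐ v ∂muT, ContinuousAt (d2 f) v) :
    ∃ g : HH, (g : VV) = prT (d1 f) (d2 f) ∧ ioT g = clT f := by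
  have hL : ∀ n, LipC Tri (fun v => f (eFun_A (eFun_c n) v)) :=
    fun n => eFun_lipC hf h0 (eFun_c_gt n)
  have t1 : Tendsto (fun n => clT (d1 (fun v => f (eFun_A (eFun_c n) v)))) atTop
      (𝓝 (clT (d1 f))) :=
    eFun_dconv measurable_d1 (abs_d1_le hf) (fun c v => eFun_d1 f c v) hc1
  have t2 : Tendsto (fun n => clT (d2 (fun v => f (eFun_A (eFun_c n) v)))) atTop
      (𝓝 (clT (d2 f))) :=
    eFun_dconv measurable_d2 (abs_d2_le hf) (fun c v => eFun_d2 f c v) hc2
  have t3 : Tendsto (fun n => clT (fun v => f (eFun_A (eFun_c n) v))) atTop (𝓝 (clT f)) := by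
    refine eFun_conv (C := K) (fun n => (hf.continuous.comp (eFun_A_cont _)).measurable)
      hf.continuous.measurable (fun n v => eFun_bdd hf h0 _) (eFun_bdd hf h0) ?_
    exact Eventually.of_forall fun v => (hf.continuous.tendsto v).comp (eFun_A_tendsto v)
  have t4 : Tendsto (fun n => grdT ⟨fun v => f (eFun_A (eFun_c n) v), hL n⟩) atTop
      (𝓝 (prT (d1 f) (d2 f))) := by
    have h1 := (WithLp.prodContinuousLinearEquiv 2 ℝ LL LL).symm.continuous.tendsto
      (clT (d1 f), clT (d2 f))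
    exact h1.comp (t1.prodMk_nhds t2)
  have hmem : prT (d1 f) (d2 f) ∈ HH := by
    refine (Submodule.isClosed_topologicalClosure _).mem_of_tendsto t4
      (Eventually.of_forall fun n => grdT_mem _)
  refine ⟨⟨prT (d1 f) (d2 f), hmem⟩, rfl, ?_⟩
  have t5 : Tendsto (fun n => gH ⟨fun v => f (eFun_A (eFun_c n) v), hL n⟩) atTop
      (𝓝 (⟨prT (d1 f) (d2 f), hmem⟩ : HH)) := tendsto_subtype_rng.2 t4
  have t6 := (ioT.continuous.tendsto (⟨prT (d1 f) (d2 f), hmem⟩ : HH)).comp t5
  refine tendsto_nhds_unique t6 (t3.congr fun n => ?_)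
  exact (ioT_gH ⟨fun v => f (eFun_A (eFun_c n) v), hL n⟩).symm

end Pool.Agent.MP4eed4eP.PE
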