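import Pool.Agent.Lib.MP_4eed4e_an_PE.EWeak
import Pool.Agent.Lib.MP_4eed4e_an_PE.EFun
import Pool.Agent.Lib.MP_4eed4e_an_PE.ECpl
import Pool.Agent.Lib.MP_4eed4e_an_PE.EAlg
import Pool.Agent.Lib.MP_4eed4e_an_PD.DMain

set_option autoImplicit false

/-!
Project P, block E, module EDer: the general formula for the derivative of the traces.
-/

namespace Pool.Agent.MP4eed4eP.PE

open MeasureTheory Set Filter Topology

/-- The square of the norm of the eigenfunctions `uf κ`. -/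
noncomputable def nu2 : ℝ := 3 * √3 / 8

theorem nu2_pos : 0 < nu2 := by
  have := s3_pos
  unfold nu2
  positivity

theorem mu_pos (κ : KS) : 0 < mu κ := by
  have h1 := nrm_pos κ
  have h2 := Real.pi_pos
  unfold mu
  have h3 : 0 < nrm κ := by linarith
  positivity

theorem exists_g {m : ℕ} (th : Fin m → ℝ) (h : th ∈ MK m) (κ : KS) :
    ∃ g : HH, (g : VV) = prT (d1 (uh th κ)) (d2 (uh th κ)) ∧ ioT g = clT (uh th κ) := by
  obtain ⟨K, hK⟩ := lip_uh th h κ
  exact exists_HH hK (fun v hv => uh_zero th κ hv) (cont_d1_uh th κ) (cont_d2_uh th κ)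

/-- The integrand of Hadamard's formula. -/
noncomputable def HI (κ : KS) (W : P) (ψ : P → ℝ) (y : P) : ℝ :=
  d1 ψ y * Z1 κ W y + d2 ψ y * Z2 κ W y

theorem intOn_HI (κ : KS) (W : P) {ψ : P → ℝ} {K : NNReal} (hψ : LipschitzWith K ψ) :
    IntegrableOn (HI κ W ψ) T0 :=
  (intOn_d1_mul hψ (cd_Z1 κ W).continuous).add (intOn_d2_mul hψ (cd_Z2 κ W).continuous)

/-- The gradient of the velocity function. -/
theorem grad_psi {m : ℕ} {th : Fin m → ℝ} (h : th ∈ MK m) {ψ : P → ℝ} {φ : P} {b : ℝ} {j : ℕ}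
    (hj : j ≤ m) (hps : ∀ v ∈ Sec m j, ψ (Fm (cs th) v) = b + dot φ (Fm (cs th) v)) {v : P}
    (hv : v ∈ Sec m j) (hd : DifferentiableAt ℝ ψ (Fm (cs th) v)) :
    d1 ψ (Fm (cs th) v) = φ.1 ∧ d2 ψ (Fm (cs th) v) = φ.2 := by
  have hJ := Jj_pos (cs_mem th h) hj
  have hJ' : Jj (cs th) j = (La (cs th) j).1 * (Lb (cs th) j).2 -
    (La (cs th) j).2 * (Lb (cs th) j).1 := rfl
  have hl : HasFDerivAt (fun y : P => b + dot φ y)
      (φ.1 • ContinuousLinearMap.fst ℝ ℝ ℝ + φ.2 • ContinuousLinearMap.snd ℝ ℝ ℝ)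
      (Fm (cs th) v) :=
    ((φ.1 • ContinuousLinearMap.fst ℝ ℝ ℝ +
      φ.2 • ContinuousLinearMap.snd ℝ ℝ ℝ).hasFDerivAt).const_add b
  have e1 : d1 (fun y : P => b + dot φ y) (Fm (cs th) v) = φ.1 := by
    unfold d1
    rw [hl.fderiv]
    simp
  have e2 : d2 (fun y : P => b + dot φ y) (Fm (cs th) v) = φ.2 := by
    unfold d2
    rw [hl.fderiv]
    simp
  have hev : (fun v => ψ (Fm (cs th) v)) =ᶠ[𝓝 v] fun v => b + dot φ (Fm (cs th) v) := by
    filter_upwards [(isOpen_Sec m j).mem_nhds hv] with w hw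
    exact hps w hw
  have f1 : d1 (fun v => ψ (Fm (cs th) v)) v = d1 (fun v => b + dot φ (Fm (cs th) v)) v := by
    unfold d1
    rw [hev.fderiv_eq]
  have f2 : d2 (fun v => ψ (Fm (cs th) v)) v = d2 (fun v => b + dot φ (Fm (cs th) v)) v := by
    unfold d2
    rw [hev.fderiv_eq]
  have g1 := d1_Fm (cs th) hj hv hd
  have g2 := d2_Fm (cs th) hj hv hd
  have g3 : d1 (fun v => b + dot φ (Fm (cs th) v)) v = _ :=
    d1_Fm (cs th) hj hv hl.differentiableAt
  have g4 : d2 (fun v => b + dot φ (Fm (cs th) v)) v = _ :=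
    d2_Fm (cs th) hj hv hl.differentiableAt
  rw [e1, e2] at g3 g4
  rw [f1, g3] at g1
  rw [f2, g4] at g2
  constructor
  · apply mul_left_cancel₀ hJ.ne'
    rw [hJ']
    linear_combination (-(Lb (cs th) j).2) * g1 + (La (cs th) j).2 * g2
  · apply mul_left_cancel₀ hJ.ne'
    rw [hJ']
    linear_combination ((Lb (cs th) j).1) * g1 - (La (cs th) j).1 * g2

/-- The term of the eigenvalue `κ`. -/
theorem term_eq {m : ℕ} (th : Fin m → ℝ) (h : th ∈ MK m) (w : Par m) (W : P)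
    {ψ : P → ℝ} {K : NNReal} (hψ : LipschitzWith K ψ) (φ : ℕ → P) (b : ℕ → ℝ)
    (hW : ∀ j ≤ m, fderiv ℝ (fun c : Par m => WW c j) (cs th) w =
        dot (φ j) (WW (cs th) j) • W ∧
      fderiv ℝ (fun c : Par m => WW c (j + 1)) (cs th) w = dot (φ j) (WW (cs th) (j + 1)) • W)
    (hps : ∀ j ≤ m, ∀ v ∈ Sec m j, ψ (Fm (cs th) v) = b j + dot (φ j) (Fm (cs th) v))
    (κ : KS) {g : HH} (hg : (g : VV) = prT (d1 (uh th κ)) (d2 (uh th κ)))
    (hio : ioT g = clT (uh th κ)) :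
    ∑ j : Fin (m + 1), fderiv ℝ (fun c => rho j c ^ 2) (cs th) w * ‖chi m j (ioT g)‖ ^ 2
      - mu κ * inner ℝ (fderiv ℝ (fun c : Par m => AA c) (cs th) w g) g =
      -(mu κ * ∫ y in T0, HI κ W ψ y) := by
  have hc := cs_mem th h
  obtain ⟨K', hK'⟩ := lip_uh th h κ
  have hu := memLp_uh th h κ
  have hmu := mu_pos κ
  have i1 := memLp_d1 hK'
  have i2 := memLp_d2 hK'
  have hint : IntegrableOn (HI κ W ψ) (Dom (cs th)) := by
    rw [Dom_cs th h]
    exact intOn_HI κ W hψ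
  rw [inner_fderiv_AA hc w g i1 i2 hg, ← Dom_cs th h, integral_Dom hc _ hint, Finset.mul_sum,
    Finset.mul_sum, ← Finset.sum_neg_distrib, ← Finset.sum_sub_distrib]
  refine Finset.sum_congr rfl fun j _ => ?_
  have hj : (j : ℕ) ≤ m := Nat.lt_succ_iff.1 j.2
  obtain ⟨hw1, hw2⟩ := hW j hj
  have hrho : fderiv ℝ (fun c => rho j c ^ 2) (cs th) w = Jj (cs th) j * dot W (φ j) := by
    have h1 : (fun c : Par m => rho j c ^ 2) =ᶠ[𝓝 (cs th)] fun c => Jj c j := by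
      filter_upwards [(isOpen_CM m).mem_nhds hc] with c hc'
      exact (rho_sq hc' j).1
    rw [h1.fderiv_eq]
    exact fderiv_Jj w W (φ j) hw1 hw2
  have j1 : Integrable (fun v => d1 (uh th κ) v ^ 2) (volume.restrict (Sec m j)) := by
    have := (i1.integrable_mul i1).mono_measure
      (Measure.restrict_mono (Sec_subset_Tri m j) le_rfl)
    refine this.congr (Eventually.of_forall fun v => ?_)
    simp only [Pi.mul_apply]
    ring
  have j2 : Integrable (fun v => d2 (uh th κ) v ^ 2) (volume.restrict (Sec m j)) := by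
    have := (i2.integrable_mul i2).mono_measure
      (Measure.restrict_mono (Sec_subset_Tri m j) le_rfl)
    refine this.congr (Eventually.of_forall fun v => ?_)
    simp only [Pi.mul_apply]
    ring
  have j12 : Integrable (fun v => 2 * (d1 (uh th κ) v * d2 (uh th κ) v))
      (volume.restrict (Sec m j)) :=
    ((i1.integrable_mul i2).mono_measure
      (Measure.restrict_mono (Sec_subset_Tri m j) le_rfl)).const_mul 2
  have j0 : Integrable (fun v => uh th κ v ^ 2) (volume.restrict (Sec m j)) := by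
    have := (hu.integrable_mul hu).mono_measure
      (Measure.restrict_mono (Sec_subset_Tri m j) le_rfl)
    refine this.congr (Eventually.of_forall fun v => ?_)
    simp only [Pi.mul_apply]
    ring
  obtain ⟨a1, ha1⟩ : ∃ a1, a1 = fderiv ℝ (fun c : Par m => m11 c j) (cs th) w := ⟨_, rfl⟩
  obtain ⟨a2, ha2⟩ : ∃ a2, a2 = fderiv ℝ (fun c : Par m => m12 c j) (cs th) w := ⟨_, rfl⟩
  obtain ⟨a3, ha3⟩ : ∃ a3, a3 = fderiv ℝ (fun c : Par m => m22 c j) (cs th) w := ⟨_, rfl⟩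
  rw [← ha1, ← ha2, ← ha3]
  have jA : Integrable (fun v => a1 * d1 (uh th κ) v ^ 2 +
      a2 * (2 * (d1 (uh th κ) v * d2 (uh th κ) v))) (volume.restrict (Sec m j)) :=
    (j1.const_mul _).add (j12.const_mul _)
  have jB : Integrable (fun v => a1 * d1 (uh th κ) v ^ 2 +
      a2 * (2 * (d1 (uh th κ) v * d2 (uh th κ) v)) + a3 * d2 (uh th κ) v ^ 2)
      (volume.restrict (Sec m j)) := jA.add (j2.const_mul _)
  rw [hrho, hio, norm_chi hu, ← integral_const_mul, ← integral_const_mul, ← integral_const_mul,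
    ← integral_const_mul, ← integral_const_mul, ← integral_add (j1.const_mul _) (j12.const_mul _),
    ← integral_add jA (j2.const_mul _), ← integral_const_mul, ← integral_const_mul,
    ← integral_neg, ← integral_sub (j0.const_mul _) (jB.const_mul _)]
  refine integral_congr_ae ?_
  filter_upwards [ae_Fm hc hj hψ.ae_differentiableAt,
    ae_restrict_mem (measurableSet_Sec m j)] with v hd hv
  obtain ⟨p1, p2⟩ := grad_psi h hj (hps j hj) hv hd
  have hm := fderiv_m hc hj w W (φ j) hw1 hw2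
    (d1 (uf κ) (Fm (cs th) v), d2 (uf κ) (Fm (cs th) v))
  have e1 : d1 (uh th κ) v = dot (La (cs th) j)
      (d1 (uf κ) (Fm (cs th) v), d2 (uf κ) (Fm (cs th) v)) := uh_d1 th κ hj hv
  have e2 : d2 (uh th κ) v = dot (Lb (cs th) j)
      (d1 (uf κ) (Fm (cs th) v), d2 (uf κ) (Fm (cs th) v)) := uh_d2 th κ hj hv
  rw [← e1, ← e2, ← ha1, ← ha2, ← ha3] at hm
  unfold HI Z1 Z2
  rw [p1, p2, uh_Tri th κ hv.1]
  simp only [dot] at hm ⊢
  have hmi : mu κ * (mu κ)⁻¹ = 1 := mul_inv_cancel₀ hmu.ne'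
  linear_combination (-(mu κ)) * hm + (-(Jj (cs th) j) * (W.1 * (φ j).1 + W.2 * (φ j).2) *
    uf κ (Fm (cs th) v) ^ 2) * hmi

theorem fderiv_gen {m a : ℕ} (ha : 2 ≤ a) (th : Fin m → ℝ) (h : th ∈ MK m) (w : Par m) (W : P)
    {ψ : P → ℝ} {K : NNReal} (hψ : LipschitzWith K ψ) (φ : ℕ → P) (b : ℕ → ℝ)
    (hW : ∀ j ≤ m, fderiv ℝ (fun c : Par m => WW c j) (cs th) w =
        dot (φ j) (WW (cs th) j) • W ∧
      fderiv ℝ (fun c : Par m => WW c (j + 1)) (cs th) w = dot (φ j) (WW (cs th) (j + 1)) • W)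
    (hps : ∀ j ≤ m, ∀ v ∈ Sec m j, ψ (Fm (cs th) v) = b j + dot (φ j) (Fm (cs th) v))
    (hhyp : ∀ y ∈ Icc (0 : ℝ) 1, ψ (√3 * y, y) * (W.1 - √3 * W.2) = 0) :
    fderiv ℝ (Fn m a) (cs th) w = 2 * a * ∑' κ, mu κ ^ (2 * a) *
      (2 / √3 * W.1 * IA κ (fun y => ψ (√3, y)) - W.2 * IO κ (fun t => ψ (√3 * t, 0))) := by
  have hs := s3_pos
  have hc := cs_mem th h
  have hnu := nu2_pos
  choose g0 hg0 hio0 using exists_g th h
  obtain ⟨q, hq⟩ : ∃ q : ℝ, q = (√nu2)⁻¹ := ⟨_, rfl⟩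
  have hq2 : q * q * nu2 = 1 := by
    rw [hq]
    have h1 : √nu2 * √nu2 = nu2 := Real.mul_self_sqrt hnu.le
    have h2 : √nu2 ≠ 0 := (Real.sqrt_pos.2 hnu).ne'
    field_simp
    rw [sq, h1]
  have hq0 : q ≠ 0 := by
    intro h0
    rw [h0] at hq2
    simp at hq2
  -- the normalised eigenvectors
  have hinner : ∀ κ κ', (inner ℝ (RT (cs th) (ioT (q • g0 κ))) (RT (cs th) (ioT (q • g0 κ'))) : ℝ)
      = if κ = κ' then 1 else 0 := by
    intro κ κ'
    rw [map_smul, map_smul, map_smul, map_smul, real_inner_smul_left, real_inner_smul_right,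
      hio0, hio0, inner_RT hc (memLp_uh th h κ) (memLp_uh th h κ'), bform_uh th h]
    split_ifs with h1
    · rw [← hq2]
      unfold nu2
      ring
    · simp
  have hon : Orthonormal ℝ (fun κ => RT (cs th) (ioT (q • g0 κ))) := by
    rw [orthonormal_iff_ite]
    exact hinner
  have hcpl : ∀ f : LL, (∀ κ, (inner ℝ (RT (cs th) (ioT (q • g0 κ))) f : ℝ) = 0) → f = 0 := by
    intro f hf
    refine cpl_uh th h f fun κ => ?_
    have h1 := hf κ
    rw [map_smul, map_smul, real_inner_smul_left, hio0] at h1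
    exact (mul_eq_zero.1 h1).resolve_left hq0
  have hg : ∀ κ, AA (cs th) (q • g0 κ) = (mu κ)⁻¹ • ContinuousLinearMap.adjoint ioT
      (RT (cs th) (RT (cs th) (ioT (q • g0 κ)))) := by
    intro κ
    have h1 := strong_eq th h κ (hg0 κ) (hio0 κ)
    simp only [map_smul]
    rw [h1, smul_comm]
  have hco : ∀ᶠ c in 𝓝 (cs th), PA.Coer (AA c) := by
    filter_upwards [(isOpen_CM m).mem_nhds hc] with c hc'
    exact coer_AA hc'
  have hsum := PA.fderiv_trc_form emb_T (cut_chi m) (analyticAt_AA hc)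
    (fun j => analyticAt_rho hc j) hco mu_pos hg hon hcpl ha w
  have hev : Fn m a =ᶠ[𝓝 (cs th)] fun c => PA.trc sT (PA.SS ioT (AA c)
      (PA.RR (fun j : Fin (m + 1) => chi m j) (fun j => rho j c))) a := by
    filter_upwards [(isOpen_CM m).mem_nhds hc] with c hc'
    exact Fn_eq_trc hc' (by omega)
  rw [hev.fderiv_eq, ← hsum.tsum_eq, ← tsum_mul_left]
  refine tsum_congr fun κ => ?_
  have hterm := term_eq th h w W hψ φ b hW hps κ (hg0 κ) (hio0 κ)
  have hhad := hadamard κ W hψ hhyp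
  have hHI : ∫ y in T0, HI κ W ψ y =
    ∫ x in T0, (d1 ψ x * Z1 κ W x + d2 ψ x * Z2 κ W x) := rfl
  rw [hHI, hhad] at hterm
  have hn1 : ∀ j : Fin (m + 1), ‖chi m j (ioT (q • g0 κ))‖ ^ 2 =
      q * q * ‖chi m j (ioT (g0 κ))‖ ^ 2 := by
    intro j
    rw [map_smul, map_smul, norm_smul, mul_pow, Real.norm_eq_abs, sq_abs]
    ring
  have hn2 : (inner ℝ (fderiv ℝ (fun c : Par m => AA c) (cs th) w (q • g0 κ)) (q • g0 κ) : ℝ) =
      q * q * inner ℝ (fderiv ℝ (fun c : Par m => AA c) (cs th) w (g0 κ)) (g0 κ) := by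
    rw [map_smul]
    have e1 := real_inner_smul_left (F := HH)
      (fderiv ℝ (fun c : Par m => AA c) (cs th) w (g0 κ)) (q • g0 κ) q
    have e2 := real_inner_smul_right (F := HH)
      (fderiv ℝ (fun c : Par m => AA c) (cs th) w (g0 κ)) (g0 κ) q
    refine e1.trans ?_
    rw [e2]
    ring
  have hn3 : ∑ j : Fin (m + 1), fderiv ℝ (fun c => rho j c ^ 2) (cs th) w *
      ‖chi m j (ioT (q • g0 κ))‖ ^ 2 = q * q * ∑ j : Fin (m + 1),
        fderiv ℝ (fun c => rho j c ^ 2) (cs th) w * ‖chi m j (ioT (g0 κ))‖ ^ 2 := by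
    rw [Finset.mul_sum]
    refine Finset.sum_congr rfl fun j _ => ?_
    rw [hn1 j]
    ring
  rw [hn2, hn3]
  have hnrm : 0 < nrm κ := by
    have := nrm_pos κ
    linarith
  have hpi := Real.pi_pos
  have hs3 : √3 * √3 = 3 := Real.mul_self_sqrt (by norm_num)
  have hqv : q * q = 8 / (3 * √3) := by
    have h1 : q * q = 1 / nu2 := eq_div_of_mul_eq hnu.ne' hq2
    rw [h1]
    unfold nu2
    field_simp
  obtain ⟨I1, hI1⟩ : ∃ I1, I1 = ∫ t in (0 : ℝ)..1, gO κ t ^ 2 * ψ (√3 * t, 0) := ⟨_, rfl⟩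
  obtain ⟨I2, hI2⟩ : ∃ I2, I2 = ∫ y in (0 : ℝ)..1, gA κ y ^ 2 * ψ (√3, y) := ⟨_, rfl⟩
  have hIO : IO κ (fun t => ψ (√3 * t, 0)) = 2 / (3 * nrm κ) * I1 := by
    rw [hI1]
    rfl
  have hIA : IA κ (fun y => ψ (√3, y)) = 1 / nrm κ * I2 := by
    rw [hI2]
    rfl
  rw [← hI1, ← hI2] at hterm
  rw [hIO, hIA]
  have hkey : q * q * (mu κ * (√3 * (Real.pi ^ 2 / 9) * W.2 * I1 -
      Real.pi ^ 2 / 3 * W.1 * I2)) = W.2 * (2 / (3 * nrm κ) * I1) -
        2 / √3 * W.1 * (1 / nrm κ * I2) := by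
    rw [hqv]
    unfold mu
    field_simp
    ring
  linear_combination (2 * (a : ℝ) * mu κ ^ (2 * a) * (q * q)) * hterm -
    (2 * (a : ℝ) * mu κ ^ (2 * a)) * hkey

end Pool.Agent.MP4eed4eP.PE
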