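import Pool.Agent.Lib.MP_4eed4e_an_PE.EUh
import Pool.Agent.Lib.MP_4eed4e_an_PD.DOp

set_option autoImplicit false

/-!
Project P, block E, module EOrt: orthogonality of the eigenfunctions.

* `inner_RT`: `RT c = ∑ j, rho j c • chi m j`; `⟨RT f, RT g⟩ = ∑_j rho_j² ⟨chi_j f, g⟩`
  (`PA.Cut`: symmetric, idempotent, mutually orthogonal; see the proof of `PA.Cut.norm_RR` in
  `_PA/Coe.lean`: `PA.Cut.chi_RR`), `inner_chi`, `rho_sq`. Or polarize `RT_sq`.
* `bform_uh`: `uh th κ = uf κ ∘ Fm` on `Sec m j ⊆ Tri`, so `bform` is the right side of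
  `mass_pull`, which is `∫_{T0} uf κ uf κ'` (`Dom_cs`), `orth_uf`.
-/

namespace Pool.Agent.MP4eed4eP.PE

open MeasureTheory Set Filter Topology

theorem inner_RT {m : ℕ} {c : Par m} (hc : c ∈ CM m) {f g : P → ℝ} (hf : MemLp f 2 muT)
    (hg : MemLp g 2 muT) : (inner ℝ (RT c (clT f)) (RT c (clT g)) : ℝ) = bform c f g := by
  have happ : ∀ x : LL, PA.RR (fun j : Fin (m + 1) => chi m j) (fun j => rho j c) x =
      ∑ j : Fin (m + 1), rho j c • chi m j x := by
    intro x
    unfold PA.RR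
    rw [sum_apply]
    rfl
  unfold RT bform
  rw [happ (clT f), sum_inner]
  refine Finset.sum_congr rfl fun j _ => ?_
  have h1 := (cut_chi m).sym j (clT f)
    (PA.RR (fun j : Fin (m + 1) => chi m j) (fun j => rho j c) (clT g))
  have h2 := (cut_chi m).chi_RR (fun j => rho j c) j (clT g)
  have h3 := (cut_chi m).sym j (clT f) (clT g)
  rw [real_inner_smul_left, h1, h2, real_inner_smul_right, ← h3, inner_chi hf hg, ← mul_assoc,
    ← pow_two, (rho_sq hc j).1]

theorem bform_uh {m : ℕ} (th : Fin m → ℝ) (h : th ∈ MK m) (κ κ' : KS) :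
    bform (cs th) (uh th κ) (uh th κ') = if κ = κ' then 3 * √3 / 8 else 0 := by
  have h1 := mass_pull (cs_mem th h) (cd_uf κ 0).continuous (cd_uf κ' 0).continuous
  rw [Dom_cs th h, orth_uf] at h1
  rw [h1]
  unfold bform
  refine Finset.sum_congr rfl fun j _ => ?_
  refine congrArg (Jj (cs th) j * ·) (setIntegral_congr_fun (measurableSet_Sec m j) fun v hv => ?_)
  have h2 := Sec_subset_Tri m j hv
  simp only [uh_Tri th κ h2, uh_Tri th κ' h2]

end Pool.Agent.MP4eed4eP.PE
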