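import Pool.Agent.Lib.MP_4eed4e_an_P.PBase

set_option autoImplicit false

/-!
Project P, block E, module EFub: Fubini's theorem on the triangle `T0`.
-/

namespace Pool.Agent.MP4eed4eP.PE

open MeasureTheory Set Filter Topology

theorem s3_pos : (0 : ℝ) < √3 := Real.sqrt_pos.2 (by norm_num)

theorem isOpen_T0 : IsOpen T0 := by
  have h1 : IsOpen {v : P | 0 < v.2} := isOpen_lt continuous_const continuous_snd
  have h2 : IsOpen {v : P | √3 * v.2 < v.1} :=
    isOpen_lt (continuous_const.mul continuous_snd) continuous_fst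
  have h3 : IsOpen {v : P | v.1 < √3} := isOpen_lt continuous_fst continuous_const
  exact h1.inter (h2.inter h3)

theorem measurableSet_T0 : MeasurableSet T0 := isOpen_T0.measurableSet

theorem T0_subset : T0 ⊆ Icc (0 : ℝ) √3 ×ˢ Icc (0 : ℝ) 1 := by
  rintro v ⟨h1, h2, h3⟩
  have hs := s3_pos
  have h4 : 0 < √3 * v.2 := mul_pos hs h1
  refine ⟨⟨by linarith, h3.le⟩, ⟨h1.le, ?_⟩⟩
  by_contra hcon
  push Not at hcon
  nlinarith

theorem volume_T0_lt_top : volume T0 < ⊤ := by
  refine (measure_mono T0_subset).trans_lt ?_
  exact (isCompact_Icc.prod isCompact_Icc).measure_lt_top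

/-- Horizontal slices. -/
theorem fub_h (f : P → ℝ) (hf : IntegrableOn f T0) :
    ∫ x in T0, f x = ∫ y in (0 : ℝ)..1, ∫ x in (√3 * y)..√3, f (x, y) := by
  have hs := s3_pos
  have hf' : Integrable (T0.indicator f) ((volume : Measure ℝ).prod volume) := by
    rw [← Measure.volume_eq_prod]
    exact hf.integrable_indicator measurableSet_T0
  rw [← integral_indicator measurableSet_T0, Measure.volume_eq_prod,
    integral_prod_symm _ hf']
  have h1 : ∀ y : ℝ, ∫ x, T0.indicator f (x, y) =
      (Ioo (0 : ℝ) 1).indicator (fun y => ∫ x in (√3 * y)..√3, f (x, y)) y := by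
    intro y
    by_cases hy : y ∈ Ioo (0 : ℝ) 1
    · rw [indicator_of_mem hy, intervalIntegral.integral_of_le (by nlinarith [hy.2]),
        ← integral_indicator measurableSet_Ioc]
      refine integral_congr_ae ?_
      have h2 : ∀ᵐ x : ℝ, x ≠ √3 := by
        simp [ae_iff, measure_singleton]
      filter_upwards [h2] with x hx
      by_cases h3 : x ∈ Ioc (√3 * y) √3
      · have h4 : (x, y) ∈ T0 := ⟨hy.1, h3.1, lt_of_le_of_ne h3.2 hx⟩
        rw [indicator_of_mem h3, indicator_of_mem h4]
      · have h4 : (x, y) ∉ T0 := fun h => h3 ⟨h.2.1, h.2.2.le⟩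
        rw [indicator_of_notMem h3, indicator_of_notMem h4]
    · rw [indicator_of_notMem hy]
      have h2 : ∀ x : ℝ, T0.indicator f (x, y) = 0 := by
        intro x
        apply indicator_of_notMem
        rintro ⟨h1, h2, h3⟩
        apply hy
        refine ⟨h1, ?_⟩
        simp only at h2 h3
        by_contra hcon
        push Not at hcon
        nlinarith
      simp [h2]
  simp_rw [h1]
  rw [integral_indicator measurableSet_Ioo, intervalIntegral.integral_of_le (by norm_num),
    integral_Ioc_eq_integral_Ioo]

/-- Vertical slices. -/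
theorem fub_v (f : P → ℝ) (hf : IntegrableOn f T0) :
    ∫ x in T0, f x = ∫ x in (0 : ℝ)..√3, ∫ y in (0 : ℝ)..(x / √3), f (x, y) := by
  have hs := s3_pos
  have hf' : Integrable (T0.indicator f) ((volume : Measure ℝ).prod volume) := by
    rw [← Measure.volume_eq_prod]
    exact hf.integrable_indicator measurableSet_T0
  rw [← integral_indicator measurableSet_T0, Measure.volume_eq_prod,
    integral_prod _ hf']
  have h1 : ∀ x : ℝ, ∫ y, T0.indicator f (x, y) =
      (Ioo (0 : ℝ) √3).indicator (fun x => ∫ y in (0 : ℝ)..(x / √3), f (x, y)) x := by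
    intro x
    by_cases hx : x ∈ Ioo (0 : ℝ) √3
    · rw [indicator_of_mem hx, intervalIntegral.integral_of_le (by
        have := hx.1; positivity), ← integral_indicator measurableSet_Ioc]
      refine integral_congr_ae ?_
      have h2 : ∀ᵐ y : ℝ, y ≠ x / √3 := by
        simp [ae_iff, measure_singleton]
      filter_upwards [h2] with y hy
      by_cases h3 : y ∈ Ioc (0 : ℝ) (x / √3)
      · have h4 : (x, y) ∈ T0 := by
          refine ⟨h3.1, ?_, hx.2⟩
          have h5 := lt_of_le_of_ne h3.2 hy
          rw [lt_div_iff₀ hs] at h5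
          simp only
          linarith
        rw [indicator_of_mem h3, indicator_of_mem h4]
      · have h4 : (x, y) ∉ T0 := fun h => h3 ⟨h.1, by
          have := h.2.1
          simp only at this
          rw [le_div_iff₀ hs]; linarith⟩
        rw [indicator_of_notMem h3, indicator_of_notMem h4]
    · rw [indicator_of_notMem hx]
      have h2 : ∀ y : ℝ, T0.indicator f (x, y) = 0 := by
        intro y
        apply indicator_of_notMem
        rintro ⟨h1, h2, h3⟩
        apply hx
        simp only at h1 h2 h3
        exact ⟨lt_trans (mul_pos hs h1) h2, h3⟩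
      simp [h2]
  simp_rw [h1]
  rw [integral_indicator measurableSet_Ioo, intervalIntegral.integral_of_le hs.le,
    integral_Ioc_eq_integral_Ioo]

end Pool.Agent.MP4eed4eP.PE
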