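import Pool.Agent.Lib.MP_4eed4e_an_PE.EFub

set_option autoImplicit false

/-!
Project P, block E, module EDiv: the divergence theorem on the triangle `T0` for a Lipschitz
function times a smooth divergence free field.
-/

namespace Pool.Agent.MP4eed4eP.PE

open MeasureTheory Set Filter Topology

variable {ψ Z Z1 Z2 : P → ℝ}

theorem lip_slice_h {K : NNReal} (h : LipschitzWith K ψ) (y : ℝ) :
    LipschitzWith K (fun x => ψ (x, y)) := by
  refine LipschitzWith.of_dist_le_mul fun a b => ?_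
  refine (h.dist_le_mul _ _).trans ?_
  rw [Prod.dist_eq, dist_self, max_eq_left dist_nonneg]

theorem lip_slice_v {K : NNReal} (h : LipschitzWith K ψ) (x : ℝ) :
    LipschitzWith K (fun y => ψ (x, y)) := by
  refine LipschitzWith.of_dist_le_mul fun a b => ?_
  refine (h.dist_le_mul _ _).trans ?_
  rw [Prod.dist_eq, dist_self, max_eq_right dist_nonneg]

theorem deriv_slice_h {x : P} (h : DifferentiableAt ℝ Z x) :
    deriv (fun s => Z (s, x.2)) x.1 = d1 Z x := by
  have h1 : HasDerivAt (fun s : ℝ => ((s, x.2) : P)) ((1 : ℝ), (0 : ℝ)) x.1 :=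
    (hasDerivAt_id x.1).prodMk (hasDerivAt_const x.1 x.2)
  have h2 : HasFDerivAt Z (fderiv ℝ Z x) ((fun s : ℝ => ((s, x.2) : P)) x.1) := h.hasFDerivAt
  exact (h2.comp_hasDerivAt x.1 h1).deriv

theorem deriv_slice_v {x : P} (h : DifferentiableAt ℝ Z x) :
    deriv (fun s => Z (x.1, s)) x.2 = d2 Z x := by
  have h1 : HasDerivAt (fun s : ℝ => ((x.1, s) : P)) ((0 : ℝ), (1 : ℝ)) x.2 :=
    (hasDerivAt_const x.2 x.1).prodMk (hasDerivAt_id x.2)
  have h2 : HasFDerivAt Z (fderiv ℝ Z x) ((fun s : ℝ => ((x.1, s) : P)) x.2) := h.hasFDerivAt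
  exact (h2.comp_hasDerivAt x.2 h1).deriv

theorem ac_slice_h {K : NNReal} (h : LipschitzWith K ψ) (y a b : ℝ) :
    AbsolutelyContinuousOnInterval (fun x => ψ (x, y)) a b :=
  ((lip_slice_h h y).lipschitzOnWith (s := uIcc a b)).absolutelyContinuousOnInterval

theorem ac_slice_v {K : NNReal} (h : LipschitzWith K ψ) (x a b : ℝ) :
    AbsolutelyContinuousOnInterval (fun y => ψ (x, y)) a b :=
  ((lip_slice_v h x).lipschitzOnWith (s := uIcc a b)).absolutelyContinuousOnInterval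

theorem acZ_slice_h (h : ContDiff ℝ 1 Z) (y a b : ℝ) :
    AbsolutelyContinuousOnInterval (fun x => Z (x, y)) a b := by
  have h1 : ContDiff ℝ 1 (fun x : ℝ => Z (x, y)) := h.comp (contDiff_id.prodMk contDiff_const)
  exact h1.contDiffOn.absolutelyContinuousOnInterval

theorem acZ_slice_v (h : ContDiff ℝ 1 Z) (x a b : ℝ) :
    AbsolutelyContinuousOnInterval (fun y => Z (x, y)) a b := by
  have h1 : ContDiff ℝ 1 (fun y : ℝ => Z (x, y)) := h.comp (contDiff_const.prodMk contDiff_id)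
  exact h1.contDiffOn.absolutelyContinuousOnInterval

theorem int_slice_h {K : NNReal} (h : LipschitzWith K ψ) (hZ : ContDiff ℝ 1 Z) (y a b : ℝ) :
    ∫ x in a..b, (deriv (fun s => ψ (s, y)) x * Z (x, y) + ψ (x, y) * d1 Z (x, y)) =
      ψ (b, y) * Z (b, y) - ψ (a, y) * Z (a, y) := by
  have h1 := (ac_slice_h h y a b).integral_deriv_mul_eq_sub (acZ_slice_h hZ y a b)
  rw [← h1]
  refine intervalIntegral.integral_congr fun x _ => ?_
  have h2 : deriv (fun s => Z (s, y)) x = d1 Z (x, y) :=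
    deriv_slice_h (x := (x, y)) (hZ.differentiable (by norm_num) (x, y))
  simp only [h2]

theorem int_slice_v {K : NNReal} (h : LipschitzWith K ψ) (hZ : ContDiff ℝ 1 Z) (x a b : ℝ) :
    ∫ y in a..b, (deriv (fun s => ψ (x, s)) y * Z (x, y) + ψ (x, y) * d2 Z (x, y)) =
      ψ (x, b) * Z (x, b) - ψ (x, a) * Z (x, a) := by
  have h1 := (ac_slice_v h x a b).integral_deriv_mul_eq_sub (acZ_slice_v hZ x a b)
  rw [← h1]
  refine intervalIntegral.integral_congr fun y _ => ?_
  have h2 : deriv (fun s => Z (x, s)) y = d2 Z (x, y) :=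
    deriv_slice_v (x := (x, y)) (hZ.differentiable (by norm_num) (x, y))
  simp only [h2]

theorem continuous_d1 (hZ : ContDiff ℝ 1 Z) : Continuous (d1 Z) := by
  have h1 : Continuous (fderiv ℝ Z) := hZ.continuous_fderiv (by norm_num)
  exact h1.clm_apply continuous_const

theorem continuous_d2 (hZ : ContDiff ℝ 1 Z) : Continuous (d2 Z) := by
  have h1 : Continuous (fderiv ℝ Z) := hZ.continuous_fderiv (by norm_num)
  exact h1.clm_apply continuous_const

theorem bdd_d1 {K : NNReal} (h : LipschitzWith K ψ) (x : P) : ‖d1 ψ x‖ ≤ K := by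
  have h1 := (fderiv ℝ ψ x).le_opNorm (1, 0)
  have h2 : ‖fderiv ℝ ψ x‖ ≤ K := norm_fderiv_le_of_lipschitz ℝ h
  have h3 : ‖((1 : ℝ), (0 : ℝ))‖ = 1 := by simp [Prod.norm_def]
  rw [h3, mul_one] at h1
  exact h1.trans h2

theorem bdd_d2 {K : NNReal} (h : LipschitzWith K ψ) (x : P) : ‖d2 ψ x‖ ≤ K := by
  have h1 := (fderiv ℝ ψ x).le_opNorm (0, 1)
  have h2 : ‖fderiv ℝ ψ x‖ ≤ K := norm_fderiv_le_of_lipschitz ℝ h
  have h3 : ‖((0 : ℝ), (1 : ℝ))‖ = 1 := by simp [Prod.norm_def]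
  rw [h3, mul_one] at h1
  exact h1.trans h2

theorem intOn_cont (hZ : Continuous Z) : IntegrableOn Z T0 :=
  (hZ.continuousOn.integrableOn_compact (isCompact_Icc.prod isCompact_Icc)).mono_set T0_subset

theorem intOn_d1_mul {K : NNReal} (h : LipschitzWith K ψ) (hZ : Continuous Z) :
    IntegrableOn (fun x => d1 ψ x * Z x) T0 :=
  (intOn_cont hZ).bdd_mul (measurable_fderiv_apply_const ℝ ψ (1, 0)).aestronglyMeasurable
    (Eventually.of_forall (bdd_d1 h))

theorem intOn_d2_mul {K : NNReal} (h : LipschitzWith K ψ) (hZ : Continuous Z) :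
    IntegrableOn (fun x => d2 ψ x * Z x) T0 :=
  (intOn_cont hZ).bdd_mul (measurable_fderiv_apply_const ℝ ψ (0, 1)).aestronglyMeasurable
    (Eventually.of_forall (bdd_d2 h))

/-- Horizontal part. -/
theorem part_h {K : NNReal} (h : LipschitzWith K ψ) (hZ : ContDiff ℝ 1 Z) :
    ∫ x in T0, (d1 ψ x * Z x + ψ x * d1 Z x) =
      ∫ y in (0 : ℝ)..1, (ψ (√3, y) * Z (√3, y) - ψ (√3 * y, y) * Z (√3 * y, y)) := by
  have hint : IntegrableOn (fun x => d1 ψ x * Z x + ψ x * d1 Z x) T0 :=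
    (intOn_d1_mul h hZ.continuous).add (intOn_cont (h.continuous.mul (continuous_d1 hZ)))
  have hae : ∀ᵐ x : P, d1 ψ x * Z x + ψ x * d1 Z x =
      deriv (fun s => ψ (s, x.2)) x.1 * Z x + ψ x * d1 Z x := by
    filter_upwards [h.ae_differentiableAt] with x hx
    rw [deriv_slice_h hx]
  have h2 : ∫ x in T0, (d1 ψ x * Z x + ψ x * d1 Z x) =
      ∫ x in T0, (deriv (fun s => ψ (s, x.2)) x.1 * Z x + ψ x * d1 Z x) :=
    integral_congr_ae (ae_restrict_of_ae hae)
  rw [h2, fub_h _ (hint.congr (ae_restrict_of_ae hae))]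
  refine intervalIntegral.integral_congr fun y _ => ?_
  exact int_slice_h h hZ y _ _

/-- Vertical part. -/
theorem part_v {K : NNReal} (h : LipschitzWith K ψ) (hZ : ContDiff ℝ 1 Z) :
    ∫ x in T0, (d2 ψ x * Z x + ψ x * d2 Z x) =
      ∫ x in (0 : ℝ)..√3, (ψ (x, x / √3) * Z (x, x / √3) - ψ (x, 0) * Z (x, 0)) := by
  have hint : IntegrableOn (fun x => d2 ψ x * Z x + ψ x * d2 Z x) T0 :=
    (intOn_d2_mul h hZ.continuous).add (intOn_cont (h.continuous.mul (continuous_d2 hZ)))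
  have hae : ∀ᵐ x : P, d2 ψ x * Z x + ψ x * d2 Z x =
      deriv (fun s => ψ (x.1, s)) x.2 * Z x + ψ x * d2 Z x := by
    filter_upwards [h.ae_differentiableAt] with x hx
    rw [deriv_slice_v hx]
  have h2 : ∫ x in T0, (d2 ψ x * Z x + ψ x * d2 Z x) =
      ∫ x in T0, (deriv (fun s => ψ (x.1, s)) x.2 * Z x + ψ x * d2 Z x) :=
    integral_congr_ae (ae_restrict_of_ae hae)
  rw [h2, fub_v _ (hint.congr (ae_restrict_of_ae hae))]
  refine intervalIntegral.integral_congr fun x _ => ?_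
  exact int_slice_v h hZ x _ _

/-- The divergence theorem. -/
theorem div_T0 {K : NNReal} (h : LipschitzWith K ψ) (h1 : ContDiff ℝ 1 Z1)
    (h2 : ContDiff ℝ 1 Z2) (hdiv : ∀ x, d1 Z1 x + d2 Z2 x = 0)
    (hhyp : ∀ y ∈ Icc (0 : ℝ) 1, ψ (√3 * y, y) * (Z1 (√3 * y, y) - √3 * Z2 (√3 * y, y)) = 0) :
    ∫ x in T0, (d1 ψ x * Z1 x + d2 ψ x * Z2 x) =
      (∫ y in (0 : ℝ)..1, ψ (√3, y) * Z1 (√3, y)) -
        ∫ x in (0 : ℝ)..√3, ψ (x, 0) * Z2 (x, 0) := by
  have hs := s3_pos
  have hc := h.continuous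
  have e1 : ∫ x in T0, (d1 ψ x * Z1 x + d2 ψ x * Z2 x) =
      (∫ x in T0, (d1 ψ x * Z1 x + ψ x * d1 Z1 x)) +
        ∫ x in T0, (d2 ψ x * Z2 x + ψ x * d2 Z2 x) := by
    rw [← integral_add]
    · refine integral_congr_ae (Eventually.of_forall fun x => ?_)
      have := hdiv x
      simp only
      linear_combination (-(ψ x)) * this
    · exact (intOn_d1_mul h h1.continuous).add (intOn_cont (hc.mul (continuous_d1 h1)))
    · exact (intOn_d2_mul h h2.continuous).add (intOn_cont (hc.mul (continuous_d2 h2)))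
  rw [e1, part_h h h1, part_v h h2]
  have c1 : Continuous fun y : ℝ => ψ (√3, y) * Z1 (√3, y) :=
    (hc.comp (by fun_prop)).mul (h1.continuous.comp (by fun_prop))
  have c2 : Continuous fun y : ℝ => ψ (√3 * y, y) * Z1 (√3 * y, y) :=
    (hc.comp (by fun_prop)).mul (h1.continuous.comp (by fun_prop))
  have c3 : Continuous fun x : ℝ => ψ (x, x / √3) * Z2 (x, x / √3) :=
    (hc.comp (by fun_prop)).mul (h2.continuous.comp (by fun_prop))
  have c4 : Continuous fun x : ℝ => ψ (x, 0) * Z2 (x, 0) :=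
    (hc.comp (by fun_prop)).mul (h2.continuous.comp (by fun_prop))
  have c5 : Continuous fun y : ℝ => ψ (√3 * y, y) * Z2 (√3 * y, y) :=
    (hc.comp (by fun_prop)).mul (h2.continuous.comp (by fun_prop))
  rw [intervalIntegral.integral_sub (c1.intervalIntegrable _ _) (c2.intervalIntegrable _ _),
    intervalIntegral.integral_sub (c3.intervalIntegrable _ _) (c4.intervalIntegrable _ _)]
  -- the hypotenuse
  have e2 : ∫ x in (0 : ℝ)..√3, ψ (x, x / √3) * Z2 (x, x / √3) =
      √3 * ∫ y in (0 : ℝ)..1, ψ (√3 * y, y) * Z2 (√3 * y, y) := by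
    have h3 := intervalIntegral.integral_comp_mul_left (a := 0) (b := 1)
      (fun x => ψ (x, x / √3) * Z2 (x, x / √3)) hs.ne'
    have h4 : (fun y : ℝ => (fun x => ψ (x, x / √3) * Z2 (x, x / √3)) (√3 * y)) =
        fun y => ψ (√3 * y, y) * Z2 (√3 * y, y) := by
      funext y
      simp only
      rw [mul_div_cancel_left₀ _ hs.ne']
    rw [h4, mul_zero, mul_one, smul_eq_mul] at h3
    rw [h3]; field_simp
  have e3 : √3 * (∫ y in (0 : ℝ)..1, ψ (√3 * y, y) * Z2 (√3 * y, y)) =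
      ∫ y in (0 : ℝ)..1, ψ (√3 * y, y) * Z1 (√3 * y, y) := by
    rw [← intervalIntegral.integral_const_mul]
    refine intervalIntegral.integral_congr fun y hy => ?_
    rw [uIcc_of_le (by norm_num)] at hy
    have := hhyp y hy
    linear_combination -this
  rw [e2, e3]
  ring

end Pool.Agent.MP4eed4eP.PE
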