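import Pool.Agent.Lib.MP_4eed4e_an_PE.EVel

set_option autoImplicit false

/-!
Project P, block E, module EFin: the first derivatives of the traces at the base points.
-/

namespace Pool.Agent.MP4eed4eP.PE

open MeasureTheory Set Filter Topology

theorem lip_aff (a b c : ℝ) : ∃ K, LipschitzWith K (fun y : P => a * y.1 + b * y.2 + c) := by
  have h1 := (a • ContinuousLinearMap.fst ℝ ℝ ℝ + b • ContinuousLinearMap.snd ℝ ℝ ℝ).lipschitz
  exact ⟨_, h1.add (LipschitzWith.const c)⟩

theorem nd_zero {m : ℕ} (th : Fin m → ℝ) : nd th 0 = 0 := by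
  simp [nd]

theorem nd_last {m : ℕ} (th : Fin m → ℝ) : nd th (m + 1) = 1 := by
  simp [nd]

/-- A point of the sector `j`. -/
theorem Fm_pt {m : ℕ} (th : Fin m → ℝ) {j : ℕ} (hj : j ≤ m) {v : P} (hv : v ∈ Sec m j) :
    ∃ α β : ℝ, 0 < α ∧ 0 < β ∧
      Fm (cs th) v = (√3 * (1 + α * (nd th j - 1) + β * (nd th (j + 1) - 1)), 1 - (α + β)) := by
  have hm : (0 : ℝ) < (m : ℝ) + 1 := by positivity
  refine ⟨((m : ℝ) + 1) * (t0 m (j + 1) * (v.1 + v.2) - v.2),
    ((m : ℝ) + 1) * (v.2 - t0 m j * (v.1 + v.2)), ?_, ?_, ?_⟩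
  · exact mul_pos hm (sub_pos.2 hv.2.2)
  · exact mul_pos hm (sub_pos.2 hv.2.1)
  · rw [Fm_Sec (cs th) hj hv, Lj_eq, WW_cs, WW_cs, pB_cs]
    ext
    · simp only [Prod.fst_add, Prod.smul_fst, smul_eq_mul]
      ring
    · simp only [Prod.snd_add, Prod.smul_snd, smul_eq_mul]
      ring

/-! ### The function of the direction `r` -/

/-- The velocity function of the direction `r`. -/
noncomputable def psR {m : ℕ} (th : Fin m → ℝ) (i : Fin m) (y : P) : ℝ :=
  max 0 (min ((y.1 / √3 - y.2 - nd th i * (1 - y.2)) / (nd th (i + 1) - nd th i))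
    ((nd th (i + 2) * (1 - y.2) - (y.1 / √3 - y.2)) / (nd th (i + 2) - nd th (i + 1))))

theorem lip_psR {m : ℕ} (th : Fin m → ℝ) (i : Fin m) : ∃ K, LipschitzWith K (psR th i) := by
  obtain ⟨K1, h1⟩ := lip_aff (1 / √3 / (nd th (i + 1) - nd th i))
    ((nd th i - 1) / (nd th (i + 1) - nd th i)) (-nd th i / (nd th (i + 1) - nd th i))
  obtain ⟨K2, h2⟩ := lip_aff (-(1 / √3) / (nd th (i + 2) - nd th (i + 1)))
    ((1 - nd th (i + 2)) / (nd th (i + 2) - nd th (i + 1)))
    (nd th (i + 2) / (nd th (i + 2) - nd th (i + 1)))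
  have h3 := (h1.min h2).const_max 0
  refine ⟨max K1 K2, ?_⟩
  · have h4 : psR th i = fun y : P => max 0 (min
        (1 / √3 / (nd th (i + 1) - nd th i) * y.1 +
          (nd th i - 1) / (nd th (i + 1) - nd th i) * y.2 +
          -nd th i / (nd th (i + 1) - nd th i))
        (-(1 / √3) / (nd th (i + 2) - nd th (i + 1)) * y.1 +
          (1 - nd th (i + 2)) / (nd th (i + 2) - nd th (i + 1)) * y.2 +
          nd th (i + 2) / (nd th (i + 2) - nd th (i + 1)))) := by
      funext y
      unfold psR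
      have e1 : (y.1 / √3 - y.2 - nd th i * (1 - y.2)) / (nd th (i + 1) - nd th i) =
          1 / √3 / (nd th (i + 1) - nd th i) * y.1 +
          (nd th i - 1) / (nd th (i + 1) - nd th i) * y.2 +
          -nd th i / (nd th (i + 1) - nd th i) := by
        ring
      have e2 : (nd th (i + 2) * (1 - y.2) - (y.1 / √3 - y.2)) /
          (nd th (i + 2) - nd th (i + 1)) =
          -(1 / √3) / (nd th (i + 2) - nd th (i + 1)) * y.1 +
          (1 - nd th (i + 2)) / (nd th (i + 2) - nd th (i + 1)) * y.2 +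
          nd th (i + 2) / (nd th (i + 2) - nd th (i + 1)) := by
        ring
      rw [e1, e2]
    rw [h4]
    exact h3

/-- The gradient of the velocity function of the direction `r` on the sector `j`. -/
noncomputable def phR {m : ℕ} (th : Fin m → ℝ) (i : Fin m) (j : ℕ) : P :=
  if j = i then (1 / √3 / (nd th (i + 1) - nd th i), (nd th i - 1) / (nd th (i + 1) - nd th i))
  else if j = (i : ℕ) + 1 then (-(1 / √3) / (nd th (i + 2) - nd th (i + 1)),
    (1 - nd th (i + 2)) / (nd th (i + 2) - nd th (i + 1)))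
  else 0

/-- The constant term on the sector `j`. -/
noncomputable def bR {m : ℕ} (th : Fin m → ℝ) (i : Fin m) (j : ℕ) : ℝ :=
  if j = i then -nd th i / (nd th (i + 1) - nd th i)
  else if j = (i : ℕ) + 1 then nd th (i + 2) / (nd th (i + 2) - nd th (i + 1))
  else 0

theorem nd_le {m : ℕ} {th : Fin m → ℝ} (h : th ∈ MK m) {i j : ℕ} (hij : i ≤ j)
    (hj : j ≤ m + 1) : nd th i ≤ nd th j := by
  rcases hij.eq_or_lt with h1 | h1
  · rw [h1]
  · exact (nd_lt h h1 hj).le

theorem psR_Sec {m : ℕ} {th : Fin m → ℝ} (h : th ∈ MK m) (i : Fin m) {j : ℕ} (hj : j ≤ m) {v : P}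
    (hv : v ∈ Sec m j) :
    psR th i (Fm (cs th) v) = bR th i j + dot (phR th i j) (Fm (cs th) v) := by
  have hs := s3_pos
  have hi := i.2
  obtain ⟨α, β, hα, hβ, hF⟩ := Fm_pt th hj hv
  rw [hF]
  have d1 : 0 < nd th (i + 1) - nd th i := sub_pos.2 (nd_lt h (Nat.lt_succ_self _) (by omega))
  have d2 : 0 < nd th (i + 2) - nd th (i + 1) :=
    sub_pos.2 (nd_lt h (Nat.lt_succ_self _) (by omega))
  have e0 : √3 * (1 + α * (nd th j - 1) + β * (nd th (j + 1) - 1)) / √3 =
      1 + α * (nd th j - 1) + β * (nd th (j + 1) - 1) := by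
    field_simp
  have e1 : (√3 * (1 + α * (nd th j - 1) + β * (nd th (j + 1) - 1)) / √3 - (1 - (α + β)) -
      nd th i * (1 - (1 - (α + β)))) =
      α * (nd th j - nd th i) + β * (nd th (j + 1) - nd th i) := by
    rw [e0]
    ring
  have e2 : (nd th (i + 2) * (1 - (1 - (α + β))) -
      (√3 * (1 + α * (nd th j - 1) + β * (nd th (j + 1) - 1)) / √3 - (1 - (α + β)))) =
      α * (nd th (i + 2) - nd th j) + β * (nd th (i + 2) - nd th (j + 1)) := by
    rw [e0]
    ring
  unfold psR
  simp only [e1, e2]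
  unfold bR phR dot
  rcases lt_trichotomy j (i : ℕ) with h1 | h1 | h1
  · -- `j < i`
    rw [if_neg (by omega), if_neg (by omega), if_neg (by omega), if_neg (by omega)]
    have h2 : nd th j ≤ nd th i := nd_le h h1.le (by omega)
    have h3 : nd th (j + 1) ≤ nd th i := nd_le h h1 (by omega)
    have h4 : (α * (nd th j - nd th i) + β * (nd th (j + 1) - nd th i)) /
        (nd th (i + 1) - nd th i) ≤ 0 := by
      refine div_nonpos_of_nonpos_of_nonneg ?_ d1.le
      nlinarith
    rw [max_eq_left (min_le_of_left_le h4)]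
    simp
  · -- `j = i`
    rw [if_pos h1, if_pos h1, h1]
    have h5 : (α * (nd th i - nd th i) + β * (nd th (i + 1) - nd th i)) /
        (nd th (i + 1) - nd th i) = β := by
      field_simp
      ring
    have h6 : β ≤ (α * (nd th (i + 2) - nd th i) + β * (nd th (i + 2) - nd th (i + 1))) /
        (nd th (i + 2) - nd th (i + 1)) := by
      rw [le_div_iff₀ d2]
      nlinarith
    rw [h5, min_eq_left h6, max_eq_right hβ.le]
    field_simp
    ring
  · rcases eq_or_lt_of_le (Nat.succ_le_of_lt h1) with h2 | h2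
    · -- `j = i + 1`
      have h2' : j = (i : ℕ) + 1 := h2.symm
      rw [if_neg (by omega), if_pos h2', if_neg (by omega), if_pos h2', h2']
      have h5 : (α * (nd th (i + 2) - nd th (i + 1)) +
          β * (nd th (i + 2) - nd th (i + 1 + 1))) / (nd th (i + 2) - nd th (i + 1)) = α := by
        field_simp
        ring
      have h6 : α ≤ (α * (nd th (i + 1) - nd th i) + β * (nd th (i + 1 + 1) - nd th i)) /
          (nd th (i + 1) - nd th i) := by
        rw [le_div_iff₀ d1]
        have : 0 < nd th (i + 1 + 1) - nd th (i + 1) := d2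
        nlinarith
      rw [h5, min_eq_right h6, max_eq_right hα.le]
      have h7 : nd th ((i : ℕ) + 1 + 1) = nd th (i + 2) := rfl
      rw [h7]
      field_simp
      ring
    · -- `j > i + 1`
      rw [if_neg (by omega), if_neg (by omega), if_neg (by omega), if_neg (by omega)]
      have h3 : nd th (i + 2) ≤ nd th j := nd_le h h2 (by omega)
      have h3' : nd th (i + 2) ≤ nd th (j + 1) := nd_le h (by omega) (by omega)
      have h4 : (α * (nd th (i + 2) - nd th j) + β * (nd th (i + 2) - nd th (j + 1))) /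
          (nd th (i + 2) - nd th (i + 1)) ≤ 0 := by
        refine div_nonpos_of_nonpos_of_nonneg ?_ d2.le
        nlinarith
      rw [max_eq_left (min_le_of_right_le h4)]
      simp

theorem phR_WW {m : ℕ} {th : Fin m → ℝ} (h : th ∈ MK m) (i : Fin m) (j : ℕ) :
    dot (phR th i j) (WW (cs th) j) = (if j = (i : ℕ) + 1 then 1 else 0) ∧
      dot (phR th i j) (WW (cs th) (j + 1)) = (if j + 1 = (i : ℕ) + 1 then 1 else 0) := by
  have hs := s3_pos
  have hi := i.2
  have d1 : 0 < nd th (i + 1) - nd th i := sub_pos.2 (nd_lt h (Nat.lt_succ_self _) (by omega))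
  have d2 : 0 < nd th (i + 2) - nd th (i + 1) :=
    sub_pos.2 (nd_lt h (Nat.lt_succ_self _) (by omega))
  rw [WW_cs, WW_cs]
  unfold phR dot
  by_cases h1 : j = i
  · rw [if_pos h1, if_neg (by omega), if_pos (by omega), h1]
    constructor
    · simp only
      field_simp
      ring
    · simp only
      field_simp
      ring
  · by_cases h2 : j = (i : ℕ) + 1
    · rw [if_neg h1, if_pos h2, if_pos h2, if_neg (by omega), h2]
      have h7 : nd th ((i : ℕ) + 1 + 1) = nd th (i + 2) := rfl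
      constructor
      · simp only
        field_simp
        ring
      · simp only [h7]
        field_simp
        ring
    · rw [if_neg h1, if_neg h2, if_neg h2, if_neg (by omega)]
      simp

theorem psR_hyp {m : ℕ} {th : Fin m → ℝ} (h : th ∈ MK m) (i : Fin m) {y : ℝ}
    (hy : y ∈ Icc (0 : ℝ) 1) : psR th i (√3 * y, y) = 0 := by
  have hs := s3_pos
  have hi := i.2
  have d1 : 0 < nd th (i + 1) - nd th i := sub_pos.2 (nd_lt h (Nat.lt_succ_self _) (by omega))
  have h0 : 0 ≤ nd th i := by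
    have := nd_le h (Nat.zero_le (i : ℕ)) (by omega)
    rwa [nd_zero] at this
  unfold psR
  have e0 : √3 * y / √3 = y := by field_simp
  have h4 : (√3 * y / √3 - y - nd th i * (1 - y)) / (nd th (i + 1) - nd th i) ≤ 0 := by
    refine div_nonpos_of_nonpos_of_nonneg ?_ d1.le
    rw [e0]
    nlinarith [mul_nonneg h0 (sub_nonneg.2 hy.2)]
  exact max_eq_left (min_le_of_left_le h4)

theorem psR_right {m : ℕ} {th : Fin m → ℝ} (h : th ∈ MK m) (i : Fin m) {y : ℝ}
    (hy : y ∈ Icc (0 : ℝ) 1) : psR th i (√3, y) = 0 := by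
  have hs := s3_pos
  have hi := i.2
  have d2 : 0 < nd th (i + 2) - nd th (i + 1) :=
    sub_pos.2 (nd_lt h (Nat.lt_succ_self _) (by omega))
  have h0 : nd th (i + 2) ≤ 1 := by
    have := nd_le h (show (i : ℕ) + 2 ≤ m + 1 by omega) le_rfl
    rwa [nd_last] at this
  unfold psR
  have e0 : √3 / √3 = 1 := by field_simp
  have h4 : (nd th (i + 2) * (1 - y) - (√3 / √3 - y)) / (nd th (i + 2) - nd th (i + 1)) ≤ 0 := by
    refine div_nonpos_of_nonpos_of_nonneg ?_ d2.le
    rw [e0]
    nlinarith [mul_nonneg (sub_nonneg.2 h0) (sub_nonneg.2 hy.2)]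
  exact max_eq_left (min_le_of_right_le h4)

theorem psR_base {m : ℕ} (th : Fin m → ℝ) (i : Fin m) (t : ℝ) :
    psR th i (√3 * t, 0) = hat th i t := by
  have hs := s3_pos
  unfold psR hat
  have e0 : √3 * t / √3 = t := by field_simp
  simp only [e0, sub_zero, mul_one]

/-! ### The four derivatives -/

theorem der_R {m a : ℕ} (ha : 2 ≤ a) (th : Fin m → ℝ) (h : th ∈ MK m) (i : Fin m) :
    fderiv ℝ (Fn m a) (cs th) (Pi.single (iR i) 1) =
      2 * a * ∑' κ, mu κ ^ (2 * a) * IO κ (hat th i) := by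
  obtain ⟨K, hK⟩ := lip_psR th i
  rw [fderiv_gen ha th h _ (WW (cs th) (i + 1)) hK (phR th i) (bR th i)]
  · refine congrArg (2 * (a : ℝ) * ·) (tsum_congr fun κ => ?_)
    have h1 : IA κ (fun y => psR th i (√3, y)) = 0 := by
      unfold IA
      have h2 : ∫ y in (0 : ℝ)..1, gA κ y ^ 2 * psR th i (√3, y) = ∫ y in (0 : ℝ)..1, 0 := by
        refine intervalIntegral.integral_congr fun y hy => ?_
        rw [uIcc_of_le (by norm_num)] at hy
        simp only [psR_right h i hy, mul_zero]
      rw [h2, intervalIntegral.integral_zero, mul_zero]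
    have h3 : (fun t => psR th i (√3 * t, 0)) = hat th i := funext fun t => psR_base th i t
    rw [h1, h3, WW_cs]
    ring
  · intro j hj
    obtain ⟨h1, h2⟩ := phR_WW h i j
    rw [WW_R, WW_R, h1, h2]
    constructor
    · split_ifs <;> simp
    · split_ifs <;> simp
  · intro j hj v hv
    exact psR_Sec h i hj hv
  · intro y hy
    rw [psR_hyp h i hy, zero_mul]

theorem der_S {m a : ℕ} (ha : 2 ≤ a) (th : Fin m → ℝ) (h : th ∈ MK m) :
    fderiv ℝ (Fn m a) (cs th) (Pi.single (iS m) 1) =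
      2 * a * ∑' κ, mu κ ^ (2 * a) * IA κ (fun y => y) := by
  have hs := s3_pos
  obtain ⟨K, hK⟩ := lip_aff 0 1 0
  rw [fderiv_gen ha th h _ (√3 / 2, 1 / 2) hK (fun _ => (0, 1)) (fun _ => 0)]
  · refine congrArg (2 * (a : ℝ) * ·) (tsum_congr fun κ => ?_)
    have h1 : IO κ (fun t => 0 * (√3 * t) + 1 * (0 : ℝ) + 0) = 0 := by
      unfold IO
      simp
    have h2 : (fun y : ℝ => 0 * √3 + 1 * y + 0) = fun y => y := by
      funext y
      ring
    simp only [h1, h2]
    field_simp
    ring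
  · intro j hj
    exact ⟨WW_S th j, WW_S th (j + 1)⟩
  · intro j hj v hv
    simp only [dot]
    ring
  · intro y hy
    simp only
    ring

theorem der_X {m a : ℕ} (ha : 2 ≤ a) (th : Fin m → ℝ) (h : th ∈ MK m) :
    fderiv ℝ (Fn m a) (cs th) (Pi.single (iX m) 1) =
      2 * a * ∑' κ, mu κ ^ (2 * a) * (2 / √3 * IA κ (fun y => 1 - y)) := by
  have hs := s3_pos
  obtain ⟨K, hK⟩ := lip_aff (1 / √3) (-1) 0
  rw [fderiv_gen ha th h _ (1, 0) hK (fun _ => (1 / √3, -1)) (fun _ => 0)]
  · refine congrArg (2 * (a : ℝ) * ·) (tsum_congr fun κ => ?_)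
    have h2 : (fun y : ℝ => 1 / √3 * √3 + -1 * y + 0) = fun y => 1 - y := by
      funext y
      field_simp
      ring
    simp only [h2]
    ring
  · intro j hj
    exact ⟨WW_X th j, WW_X th (j + 1)⟩
  · intro j hj v hv
    simp only [dot]
    ring
  · intro y hy
    simp only
    field_simp
    ring

theorem der_Y {m a : ℕ} (ha : 2 ≤ a) (th : Fin m → ℝ) (h : th ∈ MK m) :
    fderiv ℝ (Fn m a) (cs th) (Pi.single (iY m) 1) =
      - (2 * a * ∑' κ, mu κ ^ (2 * a) * IO κ (fun t => t)) := by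
  have hs := s3_pos
  obtain ⟨K, hK⟩ := lip_aff (1 / √3) (-1) 0
  rw [fderiv_gen ha th h _ (0, 1) hK (fun _ => (1 / √3, -1)) (fun _ => 0), ← mul_neg, ← tsum_neg]
  · refine congrArg (2 * (a : ℝ) * ·) (tsum_congr fun κ => ?_)
    have h2 : (fun t : ℝ => 1 / √3 * (√3 * t) + -1 * 0 + 0) = fun t => t := by
      funext t
      field_simp
      ring
    simp only [h2]
    ring
  · intro j hj
    exact ⟨WW_Y th j, WW_Y th (j + 1)⟩
  · intro j hj v hv
    simp only [dot]
    ring
  · intro y hy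
    simp only
    field_simp
    ring

end Pool.Agent.MP4eed4eP.PE
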