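import Pool.Agent.Lib.MP_4eed4e_an_PE.EDer

set_option autoImplicit false

/-!
Project P, block E, module EVel: the velocity fields of the four kinds of directions.
-/

namespace Pool.Agent.MP4eed4eP.PE

open MeasureTheory Set Filter Topology

/-- The derivative in the direction of a line on which the function is affine. -/
theorem fderiv_of_line {m : ℕ} {f : Par m → P} {c w : Par m} (hd : DifferentiableAt ℝ f c) {δ : P}
    (h : ∀ s : ℝ, f (c + s • w) = f c + s • δ) : fderiv ℝ f c w = δ := by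
  have h1 : HasDerivAt (fun s : ℝ => c + s • w) w 0 := by
    simpa using ((hasDerivAt_id (0 : ℝ)).smul_const w).const_add c
  have h2 : HasFDerivAt f (fderiv ℝ f c) (c + (0 : ℝ) • w) := by
    rw [zero_smul, add_zero]
    exact hd.hasFDerivAt
  have h3 : HasDerivAt (fun s : ℝ => f (c + s • w)) (fderiv ℝ f c w) 0 :=
    h2.comp_hasDerivAt (0 : ℝ) h1
  have h4 : HasDerivAt (fun s : ℝ => f c + s • δ) δ 0 := by
    simpa using ((hasDerivAt_id (0 : ℝ)).smul_const δ).const_add (f c)
  have h5 : (fun s : ℝ => f (c + s • w)) = fun s : ℝ => f c + s • δ := funext h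
  rw [h5] at h3
  exact h3.unique h4

theorem tt_line {m : ℕ} (c : Par m) (i : Ix m) (hi : ∀ j : Fin m, iT j ≠ i) (s : ℝ) (k : ℕ) :
    tt (c + s • Pi.single i 1) k = tt c k := by
  unfold tt
  split_ifs with h1 h2
  · have h3 : (Pi.single i (1 : ℝ) : Par m) (iT ⟨k - 1, by omega⟩) = 0 :=
      Pi.single_eq_of_ne (hi _) 1
    rw [Pi.add_apply, Pi.smul_apply, h3, smul_zero, add_zero]
  · rfl
  · rfl

theorem rr_line {m : ℕ} (c : Par m) (i : Ix m) (hi : ∀ j : Fin m, iR j ≠ i) (s : ℝ) (k : ℕ) :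
    rr (c + s • Pi.single i 1) k = rr c k := by
  unfold rr
  split_ifs with h1
  · have h3 : (Pi.single i (1 : ℝ) : Par m) (iR ⟨k - 1, by omega⟩) = 0 :=
      Pi.single_eq_of_ne (hi _) 1
    rw [Pi.add_apply, Pi.smul_apply, h3, smul_zero, add_zero]
  · rfl

theorem rr_line_R {m : ℕ} (th : Fin m → ℝ) (i : Fin m) (s : ℝ) (k : ℕ) :
    rr (cs th + s • Pi.single (iR i) 1) k = 1 + (if k = (i : ℕ) + 1 then s else 0) := by
  unfold rr
  split_ifs with h1 h2 h2
  · have h3 : (⟨k - 1, by omega⟩ : Fin m) = i := Fin.ext (by show k - 1 = (i : ℕ); omega)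
    rw [h3, Pi.add_apply, Pi.smul_apply, Pi.single_eq_same, smul_eq_mul, mul_one]
    rfl
  · have h3 : (Pi.single (iR i) (1 : ℝ) : Par m) (iR ⟨k - 1, by omega⟩) = 0 := by
      refine Pi.single_eq_of_ne ?_ 1
      intro h4
      have h5 : (⟨k - 1, by omega⟩ : Fin m) = i := by
        simpa [iR] using h4
      have h6 : k - 1 = (i : ℕ) := congrArg Fin.val h5
      omega
    rw [Pi.add_apply, Pi.smul_apply, h3, smul_zero]
    rfl
  · have := i.2
    omega
  · ring

/-! ### The direction `s` -/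

theorem WW_S {m : ℕ} (th : Fin m → ℝ) (k : ℕ) :
    fderiv ℝ (fun c : Par m => WW c k) (cs th) (Pi.single (iS m) 1) =
      dot ((0 : ℝ), (1 : ℝ)) (WW (cs th) k) • ((√3 / 2, 1 / 2) : P) := by
  rw [fderiv_of_line (diff_WW _ k) (δ := ((-(√3 / 2), -(1 / 2)) : P))]
  · rw [WW_cs]
    simp only [dot]
    ext <;> simp
  · intro s
    have h1 : (cs th + s • Pi.single (iS m) 1 : Par m) (iS m) = 2 + s := by
      rw [Pi.add_apply, Pi.smul_apply, Pi.single_eq_same, smul_eq_mul, mul_one]
      rfl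
    have h2 : (cs th + s • Pi.single (iS m) 1 : Par m) (iX m) = √3 := by
      rw [Pi.add_apply, Pi.smul_apply, Pi.single_eq_of_ne (by simp [iS, iX]), smul_zero, add_zero]
      rfl
    have h3 : (cs th + s • Pi.single (iS m) 1 : Par m) (iY m) = 0 := by
      rw [Pi.add_apply, Pi.smul_apply, Pi.single_eq_of_ne (by simp [iS, iY]), smul_zero, add_zero]
      rfl
    rw [WW_cs]
    unfold WW
    rw [tt_line _ _ (fun j => by simp [iT, iS]), rr_line _ _ (fun j => by simp [iR, iS]), rr_cs,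
      tt_cs]
    unfold pB pA
    rw [h1, h2, h3]
    ext
    · simp only [Prod.fst_add, Prod.smul_fst, Prod.fst_neg, Prod.fst_sub, smul_eq_mul]
      ring
    · simp only [Prod.snd_add, Prod.smul_snd, Prod.snd_neg, Prod.snd_sub, smul_eq_mul]
      ring

/-! ### The directions `Ax`, `Ay` -/

theorem WW_X {m : ℕ} (th : Fin m → ℝ) (k : ℕ) :
    fderiv ℝ (fun c : Par m => WW c k) (cs th) (Pi.single (iX m) 1) =
      dot ((1 / √3 : ℝ), (-1 : ℝ)) (WW (cs th) k) • (((1 : ℝ), (0 : ℝ)) : P) := by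
  have hs := s3_pos
  rw [fderiv_of_line (diff_WW _ k) (δ := ((nd th k, 0) : P))]
  · rw [WW_cs]
    simp only [dot]
    ext
    · simp only [Prod.smul_fst, smul_eq_mul]
      field_simp
      ring
    · simp
  · intro s
    have h1 : (cs th + s • Pi.single (iX m) 1 : Par m) (iS m) = 2 := by
      rw [Pi.add_apply, Pi.smul_apply, Pi.single_eq_of_ne (by simp [iS, iX]), smul_zero, add_zero]
      rfl
    have h2 : (cs th + s • Pi.single (iX m) 1 : Par m) (iX m) = √3 + s := by
      rw [Pi.add_apply, Pi.smul_apply, Pi.single_eq_same, smul_eq_mul, mul_one]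
      rfl
    have h3 : (cs th + s • Pi.single (iX m) 1 : Par m) (iY m) = 0 := by
      rw [Pi.add_apply, Pi.smul_apply, Pi.single_eq_of_ne (by simp [iX, iY]), smul_zero, add_zero]
      rfl
    rw [WW_cs]
    unfold WW
    rw [tt_line _ _ (fun j => by simp [iT, iX]), rr_line _ _ (fun j => by simp [iR, iX]), rr_cs,
      tt_cs]
    unfold pB pA
    rw [h1, h2, h3]
    ext
    · simp only [Prod.fst_add, Prod.smul_fst, Prod.fst_neg, Prod.fst_sub, smul_eq_mul]
      ring
    · simp only [Prod.snd_add, Prod.smul_snd, Prod.snd_neg, Prod.snd_sub, smul_eq_mul]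
      ring

theorem WW_Y {m : ℕ} (th : Fin m → ℝ) (k : ℕ) :
    fderiv ℝ (fun c : Par m => WW c k) (cs th) (Pi.single (iY m) 1) =
      dot ((1 / √3 : ℝ), (-1 : ℝ)) (WW (cs th) k) • (((0 : ℝ), (1 : ℝ)) : P) := by
  have hs := s3_pos
  rw [fderiv_of_line (diff_WW _ k) (δ := ((0, nd th k) : P))]
  · rw [WW_cs]
    simp only [dot]
    ext
    · simp
    · simp only [Prod.smul_snd, smul_eq_mul]
      field_simp
      ring
  · intro s
    have h1 : (cs th + s • Pi.single (iY m) 1 : Par m) (iS m) = 2 := by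
      rw [Pi.add_apply, Pi.smul_apply, Pi.single_eq_of_ne (by simp [iS, iY]), smul_zero, add_zero]
      rfl
    have h2 : (cs th + s • Pi.single (iY m) 1 : Par m) (iX m) = √3 := by
      rw [Pi.add_apply, Pi.smul_apply, Pi.single_eq_of_ne (by simp [iX, iY]), smul_zero, add_zero]
      rfl
    have h3 : (cs th + s • Pi.single (iY m) 1 : Par m) (iY m) = s := by
      rw [Pi.add_apply, Pi.smul_apply, Pi.single_eq_same, smul_eq_mul, mul_one]
      exact zero_add s
    rw [WW_cs]
    unfold WW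
    rw [tt_line _ _ (fun j => by simp [iT, iY]), rr_line _ _ (fun j => by simp [iR, iY]), rr_cs,
      tt_cs]
    unfold pB pA
    rw [h1, h2, h3]
    ext
    · simp only [Prod.fst_add, Prod.smul_fst, Prod.fst_neg, Prod.fst_sub, smul_eq_mul]
      ring
    · simp only [Prod.snd_add, Prod.smul_snd, Prod.snd_neg, Prod.snd_sub, smul_eq_mul]
      ring

/-! ### The directions `r` -/

theorem WW_R {m : ℕ} (th : Fin m → ℝ) (i : Fin m) (k : ℕ) :
    fderiv ℝ (fun c : Par m => WW c k) (cs th) (Pi.single (iR i) 1) =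
      if k = (i : ℕ) + 1 then WW (cs th) (i + 1) else 0 := by
  refine fderiv_of_line (diff_WW _ k) fun s => ?_
  have h1 : (cs th + s • Pi.single (iR i) 1 : Par m) (iS m) = 2 := by
    rw [Pi.add_apply, Pi.smul_apply, Pi.single_eq_of_ne (by simp [iS, iR]), smul_zero, add_zero]
    rfl
  have h2 : (cs th + s • Pi.single (iR i) 1 : Par m) (iX m) = √3 := by
    rw [Pi.add_apply, Pi.smul_apply, Pi.single_eq_of_ne (by simp [iX, iR]), smul_zero, add_zero]
    rfl
  have h3 : (cs th + s • Pi.single (iR i) 1 : Par m) (iY m) = 0 := by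
    rw [Pi.add_apply, Pi.smul_apply, Pi.single_eq_of_ne (by simp [iY, iR]), smul_zero, add_zero]
    rfl
  rw [WW_cs, WW_cs]
  unfold WW
  rw [tt_line _ _ (fun j => by simp [iT, iR]), rr_line_R, tt_cs]
  unfold pB pA
  rw [h1, h2, h3]
  split_ifs with h4
  · rw [h4]
    ext
    · simp only [Prod.fst_add, Prod.smul_fst, Prod.fst_neg, Prod.fst_sub, smul_eq_mul]
      ring
    · simp only [Prod.snd_add, Prod.smul_snd, Prod.snd_neg, Prod.snd_sub, smul_eq_mul]
      ring
  · ext
    · simp only [Prod.fst_add, Prod.smul_fst, Prod.fst_neg, Prod.fst_sub, smul_eq_mul,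
        Prod.fst_zero]
      ring
    · simp only [Prod.snd_add, Prod.smul_snd, Prod.snd_neg, Prod.snd_sub, smul_eq_mul,
        Prod.snd_zero]
      ring

end Pool.Agent.MP4eed4eP.PE
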