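import Pool.Agent.Lib.MP_4eed4e_an_PE.EGre
import Pool.Agent.Lib.MP_4eed4e_an_PE.EOrt
import Pool.Agent.Lib.MP_4eed4e_an_PA.OutA

set_option autoImplicit false

/-!
Project P, block E, module EWeak: the eigenvalue equation on the reference triangle.
-/

namespace Pool.Agent.MP4eed4eP.PE

open MeasureTheory Set Filter Topology

theorem cont_uf (κ : KS) : Continuous (uf κ) := (contDiff_uf κ).continuous

theorem abs_uf_le (κ : KS) (v : P) : |uf κ v| ≤ 3 := by
  unfold uf
  refine (Finset.abs_sum_le_sum_abs _ _).trans ?_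
  have h1 : ∀ i ∈ (Finset.univ : Finset (Fin 3)),
      |Real.sin (Ci κ i * (Real.pi * v.1 / √3)) * Real.sin (Bi κ i * (Real.pi * v.2 / 3))| ≤ 1 := by
    intro i _
    rw [abs_mul]
    exact mul_le_one₀ (Real.abs_sin_le_one _) (abs_nonneg _) (Real.abs_sin_le_one _)
  refine (Finset.sum_le_sum h1).trans ?_
  simp

theorem memLp_uh {m : ℕ} (th : Fin m → ℝ) (h : th ∈ MK m) (κ : KS) :
    MemLp (uh th κ) 2 muT := by
  obtain ⟨K, hK⟩ := lip_uh th h κ
  refine memLp_bdd hK.continuous.measurable (C := 3) fun v => ?_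
  by_cases hv : v ∈ Tri
  · rw [uh_Tri th κ hv]
    exact abs_uf_le κ _
  · rw [uh_zero th κ hv, abs_zero]
    norm_num

theorem strong_eq {m : ℕ} (th : Fin m → ℝ) (h : th ∈ MK m) (κ : KS) {g : HH}
    (hg : (g : VV) = prT (d1 (uh th κ)) (d2 (uh th κ))) (hio : ioT g = clT (uh th κ)) :
    AA (cs th) g =
      (mu κ)⁻¹ • ContinuousLinearMap.adjoint ioT (RT (cs th) (RT (cs th) (ioT g))) := by
  have hc := cs_mem th h
  obtain ⟨K, hK⟩ := lip_uh th h κ
  have hD : Dense (GG : Set HH) := Submodule.dense_iff_topologicalClosure_eq_top.2 dense_GG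
  have hR : ∀ f g : LL, (inner ℝ (RT (cs th) f) g : ℝ) = inner ℝ f (RT (cs th) g) :=
    PA.Cut.RR_sym (cut_chi m) _
  refine PA.strong_of_weak (D0 := GG) hR hD ?_
  intro g' hg'
  obtain ⟨φ, rfl⟩ := mem_GG.1 hg'
  have hφ : LipC Tri φ.1 := φ.2
  obtain ⟨K', hK'⟩ := hφ.1
  have e1 : ((gH φ : HH) : VV) = prT (d1 φ.1) (d2 φ.1) := rfl
  have e2 : valT φ = clT φ.1 := rfl
  have hu : MemLp (uh th κ) 2 muT := memLp_uh th h κ
  rw [inner_AA, hg, e1, hio, ioT_gH, e2, inner_MM _ (memLp_d1 hK) (memLp_d2 hK) (memLp_d1 hK')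
    (memLp_d2 hK'), inner_RT hc hu hφ.memLp]
  have hF : LipC (Dom (cs th)) (push (cs th) φ.1) := lipC_push hc hφ
  have hpp : pull (cs th) (push (cs th) φ.1) = φ.1 := pull_push hc hφ
  have hen := energy_pull hc (lip_uf κ) hF.1
  have hma := mass_pull hc (cont_uf κ) hF.continuous
  rw [Dom_cs th h] at hen hma hF
  rw [green κ hF, hma] at hen
  have hv : ∀ v ∈ Tri, push (cs th) φ.1 (Fm (cs th) v) = φ.1 v := by
    intro v hv
    have h1 : pull (cs th) (push (cs th) φ.1) v = push (cs th) φ.1 (Fm (cs th) v) := by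
      unfold pull
      exact indicator_of_mem hv _
    rw [← h1, hpp]
  have ha : aform (cs th) (d1 (uh th κ)) (d2 (uh th κ)) (d1 φ.1) (d2 φ.1) =
      aform (cs th) (d1 (fun v => uf κ (Fm (cs th) v))) (d2 (fun v => uf κ (Fm (cs th) v)))
        (d1 (fun v => push (cs th) φ.1 (Fm (cs th) v)))
        (d2 (fun v => push (cs th) φ.1 (Fm (cs th) v))) := by
    unfold aform
    refine Finset.sum_congr rfl fun j _ => ?_
    refine setIntegral_congr_fun (measurableSet_Sec m j) fun v hv => ?_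
    have hvT := Sec_subset_Tri m j hv
    have h1 : d1 (uh th κ) v = d1 (fun v => uf κ (Fm (cs th) v)) v := d1_pull _ _ hvT
    have h2 : d2 (uh th κ) v = d2 (fun v => uf κ (Fm (cs th) v)) v := d2_pull _ _ hvT
    have h3 : d1 φ.1 v = d1 (fun v => push (cs th) φ.1 (Fm (cs th) v)) v := by
      rw [← d1_pull _ _ hvT, hpp]
    have h4 : d2 φ.1 v = d2 (fun v => push (cs th) φ.1 (Fm (cs th) v)) v := by
      rw [← d2_pull _ _ hvT, hpp]
    simp only [h1, h2, h3, h4]
  have hb : bform (cs th) (uh th κ) φ.1 = bform (cs th) (fun v => uf κ (Fm (cs th) v))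
      (fun v => push (cs th) φ.1 (Fm (cs th) v)) := by
    unfold bform
    refine Finset.sum_congr rfl fun j _ => ?_
    refine congrArg (Jj (cs th) j * ·)
      (setIntegral_congr_fun (measurableSet_Sec m j) fun v hv' => ?_)
    have hvT := Sec_subset_Tri m j hv'
    simp only [uh_Tri th κ hvT, hv v hvT]
  rw [ha, hb, ← hen]

end Pool.Agent.MP4eed4eP.PE
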